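import Pool.Agent.Lib.MP_7fcda1_ag.CT1

/-! Derivations, relative algebraic closures and Jacobian determinants. -/

open scoped IntermediateField TensorProduct
open Module Polynomial

set_option linter.unusedSectionVars false

noncomputable section

namespace Pool.Agent.Lib.NRC

open Pool.Agent.Lib.MP_7fcda1_ag

variable {W : Type} [Field W] [Algebra ℂ W] {ι : Type}

abbrev Der (W : Type) [Field W] [Algebra ℂ W] : Type := Derivation ℂ W W

open KaehlerDifferential in
theorem exists_dual [Fintype ι] [DecidableEq ι] {x : ι → W} (hx : IsTranscendenceBasis ℂ x) :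
    ∃ d : ι → Der W, ∀ i j, d i (x j) = if i = j then 1 else 0 := by
  let A := MvPolynomial ι ℂ
  let : Algebra A W := (MvPolynomial.aeval x : A →ₐ[ℂ] W).toRingHom.toAlgebra
  have hA : ∀ a : A, algebraMap A W a = MvPolynomial.aeval x a := fun _ => rfl
  have : IsScalarTower ℂ A W := IsScalarTower.of_algebraMap_eq fun c => by
    rw [hA, AlgHom.commutes]
  have hinj : Function.Injective (algebraMap A W) := hx.1
  have : FaithfulSMul A W := (faithfulSMul_iff_algebraMap_injective A W).2 hinj
  let : Algebra (FractionRing A) W := FractionRing.liftAlgebra A W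
  have : Algebra.IsAlgebraic A W := by
    have h1 := hx.isAlgebraic
    exact Algebra.IsAlgebraic.of_ringHom_of_comp_eq
      (hx.1.aevalEquiv : A →+* Algebra.adjoin ℂ (Set.range x)) (RingHom.id W)
      hx.1.aevalEquiv.surjective Function.injective_id
      (RingHom.ext fun a => hx.1.algebraMap_aevalEquiv a)
  have : Algebra.IsAlgebraic (FractionRing A) W :=
    IsFractionRing.comap_isAlgebraic_iff.1 this
  have : CharZero (FractionRing A) := algebraRat.charZero _
  have : Algebra.FormallyEtale A (FractionRing A) :=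
    Algebra.FormallyEtale.of_isLocalization (nonZeroDivisors A)
  have : Algebra.FormallyEtale (FractionRing A) W := Algebra.FormallyEtale.of_isSeparable _ _
  have : Algebra.FormallyEtale A W := Algebra.FormallyEtale.comp A (FractionRing A) W
  let b := ((mvPolynomialBasis ℂ ι).baseChange W).map (tensorKaehlerEquivOfFormallyEtale ℂ A W)
  have hb : ∀ i, b i = D ℂ W (x i) := fun i => by
    rw [Module.Basis.map_apply, Module.Basis.baseChange_apply, mvPolynomialBasis_apply,
      tensorKaehlerEquivOfFormallyEtale_apply, mapBaseChange_tmul, one_smul, map_D, hA,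
      MvPolynomial.aeval_X]
  refine ⟨fun i => (b.coord i).compDer (D ℂ W), fun i j => ?_⟩
  change b.coord i (D ℂ W (x j)) = _
  rw [← hb]
  simp [Finsupp.single_apply, eq_comm]

theorem der_sum (s : Finset ι) (c : ι → W) (d : ι → Der W) (w : W) :
    (∑ i ∈ s, c i • d i) w = ∑ i ∈ s, c i * d i w := by
  classical
  induction s using Finset.induction_on with
  | empty => simp
  | insert i s hi ih => simp [Finset.sum_insert hi, ih]

theorem der_aeval {F : Type} [CommRing F] [Algebra F W] (δ : Der W) (N : AddSubgroup W) (y : W)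
    (h : ∀ (c : F) (i : ℕ), y ^ i * δ (algebraMap F W c) ∈ N) (P : F[X]) :
    δ (aeval y P) - aeval y (derivative P) * δ y ∈ N := by
  induction P using Polynomial.induction_on' with
  | add P Q hP hQ =>
    convert add_mem hP hQ using 1
    simp only [map_add]
    ring
  | monomial i c =>
    convert h c i using 1
    simp only [aeval_monomial, Derivation.leibniz, Derivation.leibniz_pow, derivative_monomial,
      map_mul, map_natCast, smul_eq_mul, nsmul_eq_mul]
    ring

theorem der_aeval_eq {F : Type} [CommRing F] [Algebra F W] {δ : Der W}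
    (h : ∀ c : F, δ (algebraMap F W c) = 0) (y : W) (P : F[X]) :
    δ (aeval y P) = aeval y (derivative P) * δ y :=
  sub_eq_zero.1 (AddSubgroup.mem_bot.1 (der_aeval δ ⊥ y (fun c i => by simp [h]) P))

/-- The elements algebraic over the field generated by `S`. -/
def Kb (S : Set W) : IntermediateField ℂ W :=
  (algebraicClosure (IntermediateField.adjoin ℂ S) W).restrictScalars ℂ

variable {S : Set W} {w : W}

theorem mem_Kb : w ∈ Kb S ↔ IsAlgebraic (IntermediateField.adjoin ℂ S) w :=
  mem_algebraicClosure_iff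

theorem adjoin_le_Kb : IntermediateField.adjoin ℂ S ≤ Kb S := fun w hw =>
  mem_Kb.2 (isAlgebraic_algebraMap (⟨w, hw⟩ : IntermediateField.adjoin ℂ S))

theorem subset_Kb (h : w ∈ S) : w ∈ Kb S := adjoin_le_Kb (IntermediateField.subset_adjoin ℂ S h)

theorem root_mem_Kb {F : Type} [Field F] (ψ : F →+* W) (hψ : ∀ c, ψ c ∈ Kb S) {P : F[X]}
    (hP : P ≠ 0) (h : eval₂ ψ w P = 0) : w ∈ Kb S := by
  let K := algebraicClosure (IntermediateField.adjoin ℂ S) W
  let φ : F →+* K := ψ.codRestrict K hψ
  have h1 : IsAlgebraic K w := ⟨P.map φ, Polynomial.map_ne_zero hP, by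
    rw [aeval_def, eval₂_map]
    exact h⟩
  exact mem_Kb.2 (h1.restrictScalars _)

theorem alg_mem_Kb {F : Type} [Field F] [Algebra F W] (hψ : ∀ c, algebraMap F W c ∈ Kb S)
    (h : IsAlgebraic F w) : w ∈ Kb S := by
  obtain ⟨P, hP, h⟩ := h
  exact root_mem_Kb _ hψ hP h

theorem Kb_le {T : Set W} (h : ∀ w ∈ S, w ∈ Kb T) : Kb S ≤ Kb T := fun _ hw =>
  alg_mem_Kb (fun c => (IntermediateField.adjoin_le_iff.2 h : _ ≤ Kb T) c.2) (mem_Kb.1 hw)

theorem Kb_mono {T : Set W} (h : S ⊆ T) : Kb S ≤ Kb T := Kb_le fun _ hw => subset_Kb (h hw)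

theorem der_mem (δ : Der W) (M : IntermediateField ℂ W) (N : AddSubgroup W)
    (hN : ∀ a ∈ M, ∀ b ∈ N, a * b ∈ N) (hS : ∀ w ∈ S, w ∈ M ∧ δ w ∈ N) (hw : w ∈ M)
    (h : w ∈ Kb S) : δ w ∈ N := by
  let T : IntermediateField ℂ W :=
    { carrier := {w | w ∈ M ∧ δ w ∈ N}
      mul_mem' := fun ha hb => ⟨mul_mem ha.1 hb.1, by
        rw [Derivation.leibniz, smul_eq_mul, smul_eq_mul]
        exact add_mem (hN _ ha.1 _ hb.2) (hN _ hb.1 _ ha.2)⟩
      add_mem' := fun ha hb => ⟨add_mem ha.1 hb.1, by rw [map_add]; exact add_mem ha.2 hb.2⟩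
      algebraMap_mem' := fun c => ⟨M.algebraMap_mem c, by simp⟩
      inv_mem' := fun a ha => ⟨inv_mem ha.1, by
        rw [Derivation.leibniz_inv, smul_eq_mul]
        exact hN _ (neg_mem (pow_mem (inv_mem ha.1) _)) _ ha.2⟩ }
  have h1 : IntermediateField.adjoin ℂ S ≤ T := IntermediateField.adjoin_le_iff.2 hS
  have h2 := mem_Kb.1 h
  have : CharZero (IntermediateField.adjoin ℂ S) := algebraRat.charZero _
  have h3 := der_aeval δ N w (fun (c : IntermediateField.adjoin ℂ S) i =>
    hN _ (pow_mem hw i) _ (h1 c.2).2) (minpoly _ w)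
  have h4 : aeval w (derivative (minpoly (IntermediateField.adjoin ℂ S) w)) ≠ 0 :=
    (minpoly.irreducible h2.isIntegral).separable.aeval_derivative_ne_zero (minpoly.aeval _ _)
  have h5 : aeval w (derivative (minpoly (IntermediateField.adjoin ℂ S) w)) ∈ M := by
    rw [aeval_eq_sum_range]
    exact sum_mem fun i _ => by
      rw [Algebra.smul_def]
      exact mul_mem (h1 (Subtype.property _)).1 (pow_mem hw i)
  rw [minpoly.aeval, map_zero, zero_sub, neg_mem_iff] at h3
  have h6 := hN _ (inv_mem h5) _ h3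
  rwa [inv_mul_cancel_left₀ h4] at h6

theorem der_kill {δ : Der W} (hS : ∀ w ∈ S, δ w = 0) (h : w ∈ Kb S) : δ w = 0 :=
  der_mem δ ⊤ ⊥ (fun a _ b hb => by simp [AddSubgroup.mem_bot.1 hb])
    (fun w hw => ⟨trivial, hS w hw⟩) trivial h

variable [Fintype ι] [DecidableEq ι]

/-- The Jacobian determinant. -/
def J (D : ι → Der W) (b : ι → W) : W := (Matrix.of fun i k => D i (b k)).det

theorem exists_slot (D : ι → Der W) (b : ι → W) (k : ι) : ∃ δ : Der W,
    (∀ w, δ w = J D (Function.update b k w)) ∧ ∀ l ≠ k, δ (b l) = 0 := by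
  let A : Matrix ι ι W := Matrix.of fun i k => D i (b k)
  have h : ∀ w, J D (Function.update b k w) = (A.updateCol k fun i => D i w).det := fun w => by
    rw [J]
    congr 1
    ext i l
    by_cases h : l = k
    · simp [h]
    · simp [h, A]
  refine ⟨∑ i, A.adjugate k i • D i, fun w => ?_, fun l hl => ?_⟩
  · rw [h, ← Matrix.cramer_apply, Matrix.cramer_eq_adjugate_mulVec, der_sum]
    rfl
  · have h1 := Matrix.det_updateCol_eq_zero (M := A) hl
    rw [← Matrix.cramer_apply, Matrix.cramer_eq_adjugate_mulVec] at h1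
    rw [der_sum]
    exact h1

theorem J_update (D : ι → Der W) (b : ι → W) (k : ι) {w u : W}
    (h : ∀ δ : Der W, (∀ l ≠ k, δ (b l) = 0) → δ w = u * δ (b k)) :
    J D (Function.update b k w) = u * J D b := by
  obtain ⟨δ, h1, h2⟩ := exists_slot D b k
  rw [← h1, h δ h2, h1, Function.update_eq_self]

theorem J_ne_zero {D : ι → Der W} {a b : ι → W} (hD : ∀ i j, D i (a j) = if i = j then 1 else 0)
    (hb : ∀ w, w ∈ Kb (Set.range b)) : J D b ≠ 0 := fun h => by
  obtain ⟨v, hv, h1⟩ := Matrix.exists_vecMul_eq_zero_iff.2 h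
  refine hv (funext fun l => ?_)
  have h2 := der_kill (δ := ∑ i, v i • D i) (by
    rintro _ ⟨k, rfl⟩
    rw [der_sum]
    exact congrFun h1 k) (hb (a l))
  simpa [der_sum, hD] using h2

variable {V : ValuationSubring W}

theorem ge_one : Ge V 0 (1 : W) := Or.inr (by simp)

theorem ge_det {A : Matrix ι ι W} {n : ι → ℤ} (h : ∀ i k, Ge V (n k) (A i k)) :
    Ge V (∑ k, n k) A.det := by
  rw [Matrix.det_apply']
  refine Ge.sum fun σ _ => ?_
  have h1 : Ge V (∑ k, n k) (∏ k, A (σ k) k) := Ge.prod fun k _ => h _ k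
  rcases Int.units_eq_one_or (Equiv.Perm.sign σ) with h2 | h2
  · simpa [h2] using h1
  · simpa [h2] using h1.neg

theorem Kb_mem (h : ∀ w ∈ IntermediateField.adjoin ℂ S, w ∈ V) (hw : w ∈ Kb S) : w ∈ V := by
  have ha := (mem_Kb.1 hw).isIntegral
  refine mem_of_monic ((minpoly _ w).map (algebraMap (IntermediateField.adjoin ℂ S) W))
    ((minpoly.monic ha).map _) (fun i => ?_) ?_
  · rw [Polynomial.coeff_map]; exact h _ (Subtype.property _)
  · rw [Polynomial.eval_map_algebraMap, minpoly.aeval]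

theorem ord_hom {F : Type} [Field F] (ψ : F →+* W) (h : ∀ c, ψ c ∈ V) (c : F) : ord V (ψ c) = 0 :=
  ord_of_comap_top (eq_top_iff.2 fun c _ => h c) c

theorem Kb_ord (h : ∀ w ∈ IntermediateField.adjoin ℂ S, w ∈ V) (hw : w ∈ Kb S) : ord V w = 0 :=
  ord_hom (algebraMap (Kb S) W) (fun c => Kb_mem h c.2) ⟨w, hw⟩

end Pool.Agent.Lib.NRC
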