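import Pool.Agent.Lib.NRC.A

/-! Derivations and places: the logarithmic lemma and the order of Jacobians. -/

open scoped IntermediateField
open Module Polynomial

set_option linter.unusedSectionVars false

noncomputable section

namespace Pool.Agent.Lib.NRC

open Pool.Agent.Lib.MP_7fcda1_ag

variable {W : Type} [Field W] [Algebra ℂ W] {V : ValuationSubring W} {a b y : W} {n k : ℤ}

theorem Ge.mul' {l : ℤ} (ha : Ge V n a) (hb : Ge V k b) (h : l ≤ n + k) : Ge V l (a * b) :=
  (ha.mul hb).mono h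

theorem ge_of_le (h : n ≤ ord V a) : Ge V n a := Or.inr h

theorem unit_of (h0 : Ge V 0 a) (h1 : ¬Ge V 1 a) : a ≠ 0 ∧ ord V a = 0 := by
  have h : a ≠ 0 := fun h => h1 (Or.inl h)
  rw [ge_iff h] at h0 h1
  exact ⟨h, by omega⟩

theorem not_ge_one : ¬Ge V 1 (1 : W) := by simp [Ge]

/-- Regular elements whose derivative has order at least `s`. -/
def Pres (V : ValuationSubring W) (θ : Der W) (s : ℤ) : Subring W where
  carrier := {a | Ge V 0 a ∧ Ge V s (θ a)}
  one_mem' := ⟨ge_one, by simp⟩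
  zero_mem' := ⟨by simp, by simp⟩
  add_mem' := fun ha hb => ⟨ha.1.add hb.1, by rw [map_add]; exact ha.2.add hb.2⟩
  neg_mem' := fun ha => ⟨ha.1.neg, by rw [map_neg]; exact ha.2.neg⟩
  mul_mem' := fun ha hb => ⟨Ge.mul' ha.1 hb.1 (by simp), by
    rw [Derivation.leibniz, smul_eq_mul, smul_eq_mul]
    exact (Ge.mul' ha.1 hb.2 (by simp)).add (Ge.mul' hb.1 ha.2 (by simp))⟩

/-- The elements of order at least `n`. -/
def GeS (V : ValuationSubring W) (n : ℤ) : AddSubgroup W where
  carrier := {a | Ge V n a}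
  zero_mem' := ge_zero
  add_mem' := Ge.add
  neg_mem' := Ge.neg

variable {θ : Der W} {s : ℤ}

theorem mem_pres_of_mul {f d : W} (hd : d ∈ Pres V θ s) (hd0 : d ≠ 0) (h0 : ord V d = 0)
    (h : f * d ∈ Pres V θ s) : f ∈ Pres V θ s := by
  have h1 : Ge V 0 d⁻¹ := ge_of_le (by simp [h0])
  have h2 : d⁻¹ ∈ Pres V θ s := ⟨h1, by
    rw [Derivation.leibniz_inv, smul_eq_mul]
    exact Ge.mul' (h1.pow 2).neg hd.2 (by simp)⟩
  have := mul_mem h h2
  rwa [mul_inv_cancel_right₀ hd0] at this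

theorem aeval_mem' {F R : Type} [CommRing F] [Algebra F W] [SetLike R W] [SubringClass R W] {A : R}
    (hF : ∀ c : F, algebraMap F W c ∈ A) (hy : y ∈ A) (P : F[X]) : aeval y P ∈ A := by
  rw [aeval_eq_sum_range]
  exact sum_mem fun i _ => by
    rw [Algebra.smul_def]
    exact mul_mem (hF _) (pow_mem hy _)

theorem exists_coprime {F E : Type} [Field F] [Field E] [Algebra F E] {y w : E} (hw : w ∈ F⟮y⟯) :
    ∃ P Q : F[X], IsCoprime P Q ∧ aeval y Q ≠ 0 ∧ w * aeval y Q = aeval y P := by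
  classical
  obtain ⟨P, Q, rfl⟩ := (IntermediateField.mem_adjoin_simple_iff F w).1 hw
  by_cases hQ' : aeval y Q = 0
  · exact ⟨0, 1, isCoprime_one_right, by simp, by simp [hQ']⟩
  have hQ : Q ≠ 0 := by rintro rfl; simp at hQ'
  have hg : gcd P Q ≠ 0 := gcd_ne_zero_of_right hQ
  have h1 := (EuclideanDomain.mul_div_cancel' hg (gcd_dvd_left _ _)).symm
  have h2 := (EuclideanDomain.mul_div_cancel' hg (gcd_dvd_right _ _)).symm
  have h3 : aeval y (gcd P Q) ≠ 0 ∧ aeval y (Q / gcd P Q) ≠ 0 := by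
    rwa [h2, map_mul, mul_eq_zero, not_or] at hQ'
  refine ⟨_, _, isCoprime_div_gcd_div_gcd (p := P) hQ, h3.2, ?_⟩
  rw [congrArg (aeval y) h1, congrArg (aeval y) h2, map_mul, map_mul,
      mul_div_mul_left _ _ h3.1, div_mul_cancel₀ _ h3.2]

section
variable (hV : Disc V) {F : Type} [Field F] [Algebra F W] (hF : ∀ c : F, algebraMap F W c ∈ V)
include hV hF

theorem ge_aeval (hy : Ge V 0 y) (P : F[X]) : Ge V 0 (aeval y P) :=
  (mem_iff_ge (Or.inl hV)).1 (aeval_mem' hF ((mem_iff_ge (Or.inl hV)).2 hy) P)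

theorem exists_min (hy : Ge V 0 y) (hP : ∃ P : F[X], P ≠ 0 ∧ Ge V 1 (aeval y P)) :
    ∃ g : F[X], g ≠ 0 ∧ Ge V 1 (aeval y g) ∧ aeval y (derivative g) ≠ 0 ∧
      ord V (aeval y (derivative g)) = 0 ∧ ∀ P, Ge V 1 (aeval y P) → g ∣ P := by
  have : CharZero W := charZero_of_injective_algebraMap (algebraMap ℂ W).injective
  have : CharZero F := (algebraMap F W).charZero
  let I : Ideal F[X] :=
    { carrier := {P | Ge V 1 (aeval y P)}
      zero_mem' := by simp
      add_mem' := fun ha hb => by simpa using Ge.add ha hb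
      smul_mem' := fun c P h => by simpa using Ge.mul' (ge_aeval hV hF hy c) h (by simp) }
  have hg : ∀ P, Ge V 1 (aeval y P) ↔ Submodule.IsPrincipal.generator I ∣ P := fun P =>
    Submodule.IsPrincipal.mem_iff_generator_dvd I
  set g := Submodule.IsPrincipal.generator I
  obtain ⟨P, hP0, hP⟩ := hP
  have h0 : g ≠ 0 := ne_zero_of_dvd_ne_zero hP0 ((hg P).1 hP)
  have h1 := (hg g).2 dvd_rfl
  have h2 : ¬Ge V 1 (aeval y (derivative g)) := fun h => by
    have h3 : g.natDegree = 0 := by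
      by_contra h3
      have h4 := natDegree_derivative_lt h3
      exact h3 (derivative_eq_zero.1
        (eq_zero_of_dvd_of_natDegree_lt ((hg _).1 h) h4))
    rw [eq_C_of_natDegree_eq_zero h3] at h1 h0
    rw [aeval_C, ge_iff (by simpa using h0), ord_hom _ hF] at h1
    omega
  obtain ⟨h3, h4⟩ := unit_of (ge_aeval hV hF hy _) h2
  exact ⟨g, h0, h1, h3, h4, fun P => (hg P).1⟩

theorem exists_den {w : W} (hy : Ge V 0 y) (hw : w ∈ F⟮y⟯) (h : Ge V 0 w) :
    ∃ P Q : F[X], aeval y Q ≠ 0 ∧ ord V (aeval y Q) = 0 ∧ w * aeval y Q = aeval y P := by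
  obtain ⟨P, Q, ⟨a, b, hab⟩, h1, h2⟩ := exists_coprime hw
  refine ⟨P, Q, h1, (unit_of (ge_aeval hV hF hy Q) fun h3 => not_ge_one (V := V) ?_).2, h2⟩
  have h4 : Ge V 1 (aeval y P) := h2 ▸ Ge.mul' h h3 (by simp)
  have h5 := (Ge.mul' (ge_aeval hV hF hy a) h4 (l := 1) (by simp)).add
    (Ge.mul' (ge_aeval hV hF hy b) h3 (by simp))
  rwa [← map_mul, ← map_mul, ← map_add, hab, map_one] at h5

theorem exists_poly (hy : Ge V 0 y) {w : W} (hw : w ∈ F⟮y⟯) (h : w ∉ V) :
    ∃ P : F[X], P ≠ 0 ∧ Ge V 1 (aeval y P) := by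
  obtain ⟨P, Q, -, h1, h2⟩ := exists_coprime hw
  refine ⟨Q, by rintro rfl; simp at h1, by_contra fun h3 => h ?_⟩
  have h4 := (unit_of (ge_aeval hV hF hy Q) h3).2
  rw [mem_iff_ge (Or.inl hV), eq_div_of_mul_eq h1 h2, div_eq_mul_inv]
  exact Ge.mul' (ge_aeval hV hF hy P) ge_ord (by simp [h4])

end

theorem log_lemma (hV : Disc V) (hC : ∀ c : ℂ, algebraMap ℂ W c ∈ V) {F : Type} [Field F]
    [Algebra F W] (hF : ∀ c : F, algebraMap F W c ∈ Pres V θ 0)
    (hres : ∀ b, Ge V 0 b → ∃ P : F[X], P ≠ 0 ∧ Ge V 1 (aeval b P))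
    {π : W} (hπ : 0 < ord V π) (hθ : Ge V (ord V π) (θ π))
    (hs : ∀ b, Ge V 0 b → Ge V s (θ b)) (h : Ge V n b) : Ge V n (θ b) := by
  have : CharZero W := charZero_of_injective_algebraMap (algebraMap ℂ W).injective
  obtain ⟨w, hw0, hw⟩ := hV.exists_ord 1
  have hF' : ∀ c : F, algebraMap F W c ∈ V := fun c => (mem_iff_ge (Or.inl hV)).2 (hF c).1
  have hint : ∀ j : ℤ, Ge V 0 (j : W) := fun j => by
    simpa using (mem_iff_ge (Or.inl hV)).1 (hC j)
  have dec : ∀ b : W, b ≠ 0 → ∃ u, u ≠ 0 ∧ ord V u = 0 ∧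
      θ b = w ^ ord V b * θ u + u * (ord V b : W) * w ^ (ord V b - 1) * θ w := fun b hb => by
    have h1 := zpow_ne_zero (ord V b) hw0
    refine ⟨b / w ^ ord V b, div_ne_zero hb h1, by simp [ord_div hb h1, hw], ?_⟩
    conv_lhs => rw [← mul_div_cancel₀ b h1]
    rw [Derivation.leibniz, Derivation.leibniz_zpow]
    simp only [smul_eq_mul, zsmul_eq_mul]
    ring
  have step : ∀ C : ℕ, (∀ b, Ge V 0 b → Ge V (-C) (θ b)) → Ge V (1 - C) (θ w) := fun C hC' => by
    have h0 : π ≠ 0 := by rintro rfl; simp at hπ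
    obtain ⟨u, hu0, hu, h1⟩ := dec π h0
    have h2 : Ge V (ord V π - C) (u * (ord V π : W) * w ^ (ord V π - 1) * θ w) := by
      rw [← sub_eq_iff_eq_add'.2 h1]
      exact (hθ.mono (by omega)).sub (Ge.mul' ge_ord (hC' u (ge_of_le hu.ge)) (by simp [hw, sub_eq_add_neg]))
    have h3 : (ord V π : W) ≠ 0 := by exact_mod_cast hπ.ne'
    have h4 : ord V (ord V π : W) = 0 := by simpa using ord_hom _ hC (ord V π : ℂ)
    rw [ge_mul_iff (mul_ne_zero (mul_ne_zero hu0 h3) (zpow_ne_zero _ hw0)),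
      ord_mul (mul_ne_zero hu0 h3) (zpow_ne_zero _ hw0), ord_mul hu0 h3, hu, h4, ord_zpow,
      hw] at h2
    exact h2.mono (by omega)
  have step2 : ∀ C : ℕ, (∀ b, Ge V 0 b → Ge V (-C) (θ b)) → ∀ n b, Ge V n b →
      Ge V (n - C) (θ b) := fun C hC' n b hb => by
    by_cases h0 : b = 0
    · simp [h0]
    obtain ⟨u, hu0, hu, h1⟩ := dec b h0
    rw [ge_iff h0] at hb
    rw [h1]
    refine (Ge.mul' ge_ord (hC' u (ge_of_le hu.ge)) (by simp [hw]; omega)).add
      (Ge.mul' (((ge_of_le hu.ge).mul (hint _)).mul ge_ord) (step C hC') (by simp [hw]; omega))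
  have key : ∀ C : ℕ, (∀ b, Ge V 0 b → Ge V (-C) (θ b)) → ∀ b, Ge V 0 b → Ge V 0 (θ b) := by
    intro C
    induction C with
    | zero => exact fun h => by simpa using h
    | succ C ih =>
      refine fun hC' => ih fun b hb => ?_
      obtain ⟨g, -, h1, h2, h3, -⟩ := exists_min hV hF' hb (hres b hb)
      have h4 : Ge V 0 _ := der_aeval θ (GeS V 0) b
        (fun c i => Ge.mul' (hb.pow i) (hF c).2 (by simp)) g
      have h5 := ((step2 _ hC' 1 _ h1).mono (m := -C) (by push_cast; omega)).sub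
        (h4.mono (by omega))
      rw [sub_sub_cancel, ge_mul_iff h2, h3, sub_zero] at h5
      exact h5
  simpa using step2 0 (by simpa using key s.natAbs fun b hb => (hs b hb).mono (by omega)) n b h

section place

variable {M L : Type} [Field M] [Field L] [Algebra M W] [Algebra L W] [IsFF M W]

theorem place_res (v : Place M W) (hb : Ge v.O 0 b) :
    ∃ P : M[X], P ≠ 0 ∧ Ge v.O 1 (aeval b P) := by
  by_cases h : IsAlgebraic M b
  · obtain ⟨P, h1, h2⟩ := h
    exact ⟨P, h1, Or.inl h2⟩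
  have := IsFF.finite (κ := M) h
  by_contra h1
  exact v.ne_top (eq_top_of_algebraic (F := M⟮b⟯) fun c => by_contra fun h2 =>
    h1 (exists_poly v.disc v.const hb c.2 h2))

theorem exists_bound [Algebra M L] [IsScalarTower M L W] [FiniteDimensional L W] (v : Place M W)
    (π : L) (hπ : 0 < ord v.O (algebraMap L W π))
    (hA : ∀ a : L, Ge v.O 0 (algebraMap L W a) → Ge v.O 0 (θ (algebraMap L W a))) :
    ∃ s, ∀ b, Ge v.O 0 b → Ge v.O s (θ b) := by
  classical
  have : CharZero W := charZero_of_injective_algebraMap (algebraMap ℂ W).injective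
  have : CharZero L := (algebraMap L W).charZero
  have hd : ∀ w : Place M W, ∀ a, a ∈ w.O ↔ Ge w.O 0 a := fun w a => mem_iff_ge (Or.inl w.disc)
  let A : ValuationSubring L := v.O.comap (algebraMap L W)
  have hπ0 : algebraMap L W π ≠ 0 := fun h => by simp [h] at hπ
  obtain ⟨t, β, hβ⟩ := FiniteDimensional.exists_is_basis_integral A L W
  let γ := (Algebra.traceForm L W).dualBasis (traceForm_nondegenerate L W) β
  let C : ℤ := ∑ i, (|ord v.O (γ i)| + |ord v.O (θ (γ i))|)
  have hC : ∀ i, |ord v.O (γ i)| + |ord v.O (θ (γ i))| ≤ C := fun i =>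
    Finset.single_le_sum (f := fun i => |ord v.O (γ i)| + |ord v.O (θ (γ i))|)
      (fun _ _ => by positivity) (Finset.mem_univ i)
  have h1 : ∀ b, IsIntegral A b → Ge v.O (-C) (θ b) := fun b hb => by
    have h2 := integralClosure_le_span_dualBasis β hβ (show b ∈ integralClosure A W from hb)
    suffices Ge v.O (-C) b ∧ Ge v.O (-C) (θ b) from this.2
    clear hb
    induction h2 using Submodule.span_induction with
    | mem a ha =>
      obtain ⟨i, rfl⟩ := ha
      have h3 := hC i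
      have h4 := neg_abs_le (ord v.O (γ i))
      have h5 := neg_abs_le (ord v.O (θ (γ i)))
      have h6 := abs_nonneg (ord v.O (γ i))
      have h7 := abs_nonneg (ord v.O (θ (γ i)))
      exact ⟨ge_of_le (by change _ ≤ ord v.O (γ i); omega),
        ge_of_le (by change _ ≤ ord v.O (θ (γ i)); omega)⟩
    | zero => simp
    | add a b _ _ ha hb => exact ⟨ha.1.add hb.1, by rw [map_add]; exact ha.2.add hb.2⟩
    | smul c a _ ha =>
      have h3 : c • a = algebraMap L W c * a := Algebra.smul_def c a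
      have h4 := (hd v _).1 (c.2 : algebraMap L W c ∈ v.O)
      rw [h3, Derivation.leibniz, smul_eq_mul, smul_eq_mul]
      exact ⟨Ge.mul' h4 ha.1 (by simp),
        (Ge.mul' h4 ha.2 (by simp)).add (Ge.mul' ha.1 (hA _ h4) (by simp))⟩
  have h2 : ∀ b, (∀ w : Place M W, 0 < ord w.O (algebraMap L W π) → Ge w.O 0 b) →
      IsIntegral A b := fun b hb => by_contra fun h => by
    obtain ⟨V', h3, h4⟩ := Subring.exists_le_valuationSubring_of_isIntegrallyClosedIn
      (R := (integralClosure A W).toSubring) h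
    have h5 : ∀ a : L, algebraMap L W a ∈ v.O → algebraMap L W a ∈ V' := fun a ha =>
      h3 ((integralClosure A W).algebraMap_mem ⟨a, ha⟩)
    let w : Place M W := ⟨V', by rintro rfl; exact h4 trivial, fun c => by
      have := v.const c
      rw [IsScalarTower.algebraMap_apply M L W] at this ⊢
      exact h5 _ this⟩
    refine h4 ((hd w b).2 (hb w (by_contra fun h6 => w.ne_top (eq_top_of_algebraic (F := L)
      fun c => ?_))))
    have h7 := h5 (π ^ (ord v.O (algebraMap L W c)).natAbs * c) (by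
      rw [hd, map_mul, map_pow]
      refine Ge.mul' ge_ord ge_ord ?_
      rw [ord_pow]
      have := neg_abs_le (ord v.O (algebraMap L W c))
      have := abs_nonneg (ord v.O (algebraMap L W c))
      simp only [Int.natCast_natAbs]
      nlinarith)
    have h8 := (hd w _).1 h7
    rw [map_mul, map_pow, ge_mul_iff (pow_ne_zero _ hπ0), ord_pow] at h8
    refine (hd w _).2 (h8.mono ?_)
    have := Int.natCast_nonneg (ord v.O (algebraMap L W c)).natAbs
    nlinarith
  refine ⟨-C, fun b hb => ?_⟩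
  let S := (CT1_finite_zeros (κ := M) (algebraMap L W π)).toFinset
  have hS : ∀ w, w ∈ S ↔ 0 < ord w.O (algebraMap L W π) := fun w => Set.Finite.mem_toFinset _
  obtain ⟨z, hz1, hz2⟩ := CT1_approx S ((hS v).2 hπ) (fun w => 1 + |ord w.O b|) 1
  have h3 := ord_add_of_ge (V := v.O) one_ne_zero (hz1.mono (m := ord v.O 1 + 1) (by
    have := abs_nonneg (ord v.O b)
    simp only [ord_one]
    omega))
  rw [add_sub_cancel, ord_one] at h3
  have h4 : ∀ w : Place M W, 0 < ord w.O (algebraMap L W π) → Ge w.O 0 z ∧ Ge w.O 0 (b * z) := by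
    intro w hw
    by_cases h : w = v
    · subst h
      exact ⟨ge_of_le h3.2.ge, Ge.mul' hb (ge_of_le h3.2.ge) (by simp)⟩
    · have h5 := hz2 w ((hS w).2 hw) h
      have := neg_abs_le (ord w.O b)
      have := abs_nonneg (ord w.O b)
      exact ⟨h5.mono (by omega), Ge.mul' ge_ord h5 (by omega)⟩
  exact (mem_pres_of_mul ⟨(h4 v hπ).1, h1 _ (h2 _ fun w hw => (h4 w hw).1)⟩ h3.1 h3.2
    ⟨(h4 v hπ).2, h1 _ (h2 _ fun w hw => (h4 w hw).2)⟩).2

end place

/-- What the local argument uses about a place. -/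
structure Loc {ι : Type} [Fintype ι] [DecidableEq ι] (V : ValuationSubring W) (e : ℤ)
    (Λ : IntermediateField ℂ W) (D : ι → Der W) : Prop where
  disc : Disc V
  const : ∀ c : ℂ, algebraMap ℂ W c ∈ V
  pos : 0 < e
  dvd : ∀ b ∈ Λ, e ∣ ord V b
  J1 : ∀ (b : ι → W) (n : ι → ℤ), (∀ k, Ge V (n k) (b k)) → Ge V (∑ k, n k - e) (J D b)
  J2 : ∀ b : ι → W, (∀ k, b k ∈ Λ ∧ Ge V 0 (b k)) → Ge V 0 (J D b)

theorem exists_loc {M L σ : Type} [Field M] [Field L] [Algebra M W] [Algebra L W] [IsFF M W]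
    [Algebra ℂ M] [Algebra ℂ L] [Algebra M L] [IsScalarTower M L W] [IsScalarTower ℂ M W]
    [IsScalarTower ℂ L W] [FiniteDimensional L W] [Fintype σ] [DecidableEq σ] {x : L}
    (hx : M⟮x⟯ = ⊤) (htr : Transcendental M x) {D : Option σ → Der W}
    (h0 : ∀ c : M, D none (algebraMap M W c) = 0) (h1 : D none (algebraMap L W x) = 1)
    (h2 : ∀ i (c : M), ∃ c' : M, D (some i) (algebraMap M W c) = algebraMap M W c')
    (h3 : ∀ i, D (some i) (algebraMap L W x) = 0) (v : Place M W)
    (hv : Ge v.O 0 (algebraMap L W x)) :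
    ∃ e, Loc v.O e (IsScalarTower.toAlgHom ℂ L W).fieldRange D := by
  set X := algebraMap L W x
  have hd : ∀ a, a ∈ v.O ↔ Ge v.O 0 a := fun a => mem_iff_ge (Or.inl v.disc)
  have hC : ∀ c : ℂ, algebraMap ℂ W c ∈ v.O := fun c => by
    rw [IsScalarTower.algebraMap_apply ℂ M W]
    exact v.const _
  have hM : ∀ c : M, Ge v.O 0 (algebraMap M W c) := fun c => (hd _).1 (v.const c)
  have hX : ∀ l : L, algebraMap L W l ∈ M⟮X⟯ := fun l => by
    have h := IntermediateField.adjoin_map M {x} (IsScalarTower.toAlgHom M L W)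
    rw [hx, Set.image_singleton] at h
    exact h.le ⟨l, trivial, rfl⟩
  have hXt : ∀ P : M[X], P ≠ 0 → aeval X P ≠ 0 := fun P hP h => hP (transcendental_iff.1
    ((transcendental_algebraMap_iff (algebraMap L W).injective).2 htr) P h)
  obtain ⟨g, g0, g1, g2, g3, g4⟩ := exists_min v.disc v.const hv (place_res v hv)
  have hπ0 := hXt g g0
  set π := aeval X g with hπ
  have he : 0 < ord v.O π := (ge_iff hπ0).1 g1
  have hdvd : ∀ (N : ℕ) (P : M[X]), P.natDegree < N → ord v.O π ∣ ord v.O (aeval X P) := by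
    intro N
    induction N with
    | zero => exact fun P h => absurd h (Nat.not_lt_zero _)
    | succ N ih =>
      intro P hP
      by_cases h : P = 0
      · simp [h]
      by_cases h' : Ge v.O 1 (aeval X P)
      · obtain ⟨Q, rfl⟩ := g4 P h'
        have hQ := right_ne_zero_of_mul h
        have h4 : g.natDegree ≠ 0 := fun h => g2 (by rw [derivative_of_natDegree_zero h, map_zero])
        rw [natDegree_mul g0 hQ] at hP
        rw [map_mul, ord_mul hπ0 (hXt Q hQ)]
        exact dvd_add dvd_rfl (ih Q (by omega))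
      · simp [(unit_of (ge_aeval v.disc v.const hv P) h').2]
  have presL : ∀ θ : Der W, (∀ c : M, Ge v.O 0 (θ (algebraMap M W c))) → Ge v.O 0 (θ X) →
      ∀ l : L, Ge v.O 0 (algebraMap L W l) → Ge v.O 0 (θ (algebraMap L W l)) := by
    intro θ h4 h5 l hl
    obtain ⟨P, Q, h6, h7, h8⟩ := exists_den v.disc v.const hv (hX l) hl
    have h9 := aeval_mem' (A := Pres v.O θ 0) (y := X) (fun c => ⟨hM c, h4 c⟩) ⟨hv, h5⟩
    exact (mem_pres_of_mul (h9 Q) h6 h7 (h8 ▸ h9 P)).2
  have hπL : algebraMap L W (aeval x g) = π := (aeval_algebraMap_apply W x g).symm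
  have log : ∀ θ : Der W, (∀ c : M, Ge v.O 0 (θ (algebraMap M W c))) → Ge v.O 0 (θ X) →
      Ge v.O (ord v.O π) (θ π) → ∀ n b, Ge v.O n b → Ge v.O n (θ b) := by
    intro θ h4 h5 h6 n b hb
    obtain ⟨s, hs⟩ := exists_bound v (aeval x g) (hπL ▸ he) (presL θ h4 h5)
    exact log_lemma v.disc hC (fun c => ⟨hM c, h4 c⟩) (fun b hb => place_res v hb) he h6 hs hb
  have hD : ∀ i (l : L), Ge v.O 0 (algebraMap L W l) → Ge v.O 0 (D i (algebraMap L W l)) := by
    rintro (_ | i)
    · exact presL _ (by simp [h0]) (h1 ▸ ge_one)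
    · refine presL _ (fun c => ?_) (by simp [h3])
      obtain ⟨c', h⟩ := h2 i c
      exact h ▸ hM c'
  have hπ' : D none π = aeval X (derivative g) := by rw [hπ, der_aeval_eq h0, h1, mul_one]
  refine ⟨ord v.O π, v.disc, hC, he, ?_, fun b n hb => ?_, fun b hb => ?_⟩
  · rintro _ ⟨l, rfl⟩
    obtain ⟨P, Q, -, h4, h5⟩ := exists_coprime (hX l)
    by_cases h : algebraMap L W l = 0
    · simp [h]
    have h6 := hdvd _ P (Nat.lt_succ_self _)
    rw [← h5, ord_mul h h4] at h6
    exact (dvd_add_left (hdvd _ Q (Nat.lt_succ_self _))).1 h6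
  · let c : Option σ → W := fun o => o.elim 0 fun i => -(D (some i) π / D none π)
    let u : Option σ → W := fun o => o.elim π fun _ => 1
    have hc : ∀ i, Ge v.O 0 (c (some i)) := fun i => by
      refine Ge.neg ?_
      rw [div_eq_mul_inv]
      exact Ge.mul' (hπL ▸ hD (some i) _ (hπL ▸ ge_of_le he.le)) ge_ord (by simp [hπ', g3])
    have h4 : (Matrix.of fun i k => u i * (Matrix.of fun i k => D i (b k) + c i * D none (b k)) i k
        ).det = π * J D b := by
      rw [Matrix.det_mul_column, Matrix.det_eq_of_forall_row_eq_smul_add_const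
        (A := Matrix.of fun i k => D i (b k) + c i * D none (b k))
        (B := Matrix.of fun i k => D i (b k)) c none rfl fun _ _ => rfl]
      simp [u, J]
    rw [← ge_mul_iff hπ0, ← h4]
    refine ge_det ?_
    rintro (_ | i) k
    · have := log (π • D none) (by simp [h0]) (by simpa [h1] using ge_of_le he.le) (by
        simpa [hπ'] using Ge.mul' ge_ord (ge_of_le g3.ge) (by simp)) _ _ (hb k)
      simpa [u, c] using this
    · have := log (D (some i) + c (some i) • D none) (fun a => by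
        obtain ⟨c', h⟩ := h2 i a
        simpa [h0, h] using hM c') (by simpa [h1, h3] using hc i) (Or.inl (by
        simp only [c, Derivation.add_apply, Derivation.smul_apply, Option.elim, smul_eq_mul]
        rw [neg_mul, div_mul_cancel₀ _ (hπ' ▸ g2), add_neg_cancel])) _ _ (hb k)
      simpa [u] using this
  · have := ge_det (V := v.O) (A := Matrix.of fun i k => D i (b k)) (n := fun _ => 0) fun i k => by
      obtain ⟨⟨l, hl⟩, h⟩ := hb k
      rw [← hl] at h
      rw [Matrix.of_apply, ← hl]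
      exact hD i l h
    simpa [J] using this

end Pool.Agent.Lib.NRC
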