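import Pool.Agent.Lib.NRC.B

/-! Valuation lemmas for the local estimate. -/

open scoped IntermediateField
open Module Polynomial

set_option linter.unusedSectionVars false

noncomputable section

namespace Pool.Agent.Lib.NRC

open Pool.Agent.Lib.MP_7fcda1_ag

variable {W : Type} [Field W] [Algebra ℂ W] {V : ValuationSubring W} {a b ξ q f : W} {e ρ : ℤ}
  {κ Z : Type} [Fintype κ] [DecidableEq κ] [Fintype Z] {Λ : IntermediateField ℂ W}

theorem Ge.le' {n : ℤ} (h : Ge V n a) (ha : a ≠ 0) : n ≤ ord V a := (ge_iff ha).1 h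

theorem ord_sub_left (ha : a ≠ 0) (hb : Ge V (ord V a + 1) b) : ord V (a - b) = ord V a := by
  rw [sub_eq_add_neg]
  exact (ord_add_of_ge ha hb.neg).2

theorem ord_sub_right (hb : b ≠ 0) (ha : Ge V (ord V b + 1) a) : ord V (a - b) = ord V b := by
  rw [← ord_neg, neg_sub, ord_sub_left hb ha]

theorem ge_min_sub : Ge V (min (ord V a) (ord V b)) (a - b) :=
  (ge_of_le (min_le_left _ _)).sub (ge_of_le (min_le_right _ _))

theorem ord_sub_min (hb : b ≠ 0) (h : ¬Ge V (ord V a + 1) (a - b)) :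
    ord V (a - b) = min (ord V a) (ord V b) := by
  have h0 : a - b ≠ 0 := fun h0 => h (Or.inl h0)
  have h1 := Ge.le' (ge_min_sub (V := V)) h0
  rw [ge_iff h0] at h
  rcases lt_or_ge (ord V b) (ord V a) with h2 | h2
  · rw [ord_sub_right hb (ge_of_le h2), min_eq_right h2.le]
  · omega

theorem term_ge (hab : a ≠ b) :
    min (ord V (ξ - a)) (ord V (ξ - b)) ≤ ord V (a - b) := by
  have h := ge_min_sub (V := V) (a := ξ - b) (b := ξ - a)
  rw [sub_sub_sub_cancel_left, min_comm] at h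
  exact Ge.le' h (sub_ne_zero.2 hab)

/-- `p` is the order of `a` cut off to the interval `[0, e]`. -/
structure Clamp (V : ValuationSubring W) (e : ℤ) (a : W) (p : ℤ) : Prop where
  lo : 0 ≤ p
  hi : p ≤ e
  ge : 0 < p → Ge V p a
  le : p < e → a ≠ 0 ∧ ord V a ≤ p

theorem clamp_of (he : 0 < e) {u w : W} (hu : ord V u = 0) (hw : ord V w = e)
    (h1 : ¬Ge V 1 (u - a)) (h2 : ¬Ge V (e + 1) (w - a)) :
    Clamp V e a (ord V (w - a) - ord V (u - a)) := by
  by_cases h : a = 0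
  · subst h
    simp only [sub_zero, hu, hw]
    exact ⟨he.le, le_rfl, fun _ => ge_zero, fun h => absurd h (lt_irrefl _)⟩
  · rw [ord_sub_min h (by rwa [hw]), ord_sub_min h (by rwa [hu]), hu, hw]
    exact ⟨by omega, by omega, fun _ => ge_of_le (by omega), fun _ => ⟨h, by omega⟩⟩

theorem gain_lo {p p' : ℤ} (hp : Clamp V e a p) (hp' : Clamp V e b p') (hab : a ≠ b) (hξ : ξ ≠ 0)
    (h : ord V ξ ≤ 0) (ha : ord V (ξ - a) ≤ ρ) (hb : ord V (ξ - b) ≤ ρ) :
    p * p' ≤ e * (ord V (a - b) - ord V (ξ - a) - ord V (ξ - b) + ρ) := by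
  have h1 := term_ge (V := V) (ξ := ξ) hab
  have h2 : min p p' ≤ ord V (a - b) - ord V (ξ - a) - ord V (ξ - b) + ρ := by
    by_cases h3 : 0 < p ∧ 0 < p'
    · have h4 := ord_sub_left hξ ((hp.ge h3.1).mono (by omega))
      have h5 := ord_sub_left hξ ((hp'.ge h3.2).mono (by omega))
      have h6 := Ge.le' (((hp.ge h3.1).mono (min_le_left p p')).sub
        ((hp'.ge h3.2).mono (min_le_right p p'))) (sub_ne_zero.2 hab)
      omega
    · omega
  have h3 := hp.lo
  have h4 := hp'.lo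
  have h5 := hp.hi
  have h6 := hp'.hi
  refine le_trans ?_ (mul_le_mul_of_nonneg_left h2 (by omega))
  rcases le_total p p' with h7 | h7
  · rw [min_eq_left h7]; nlinarith
  · rw [min_eq_right h7]; nlinarith

theorem gain_hi {p p' : ℤ} (hp : Clamp V e a p) (hp' : Clamp V e b p') (hab : a ≠ b)
    (h : e ≤ ord V ξ) (hρ : e ≤ ρ) (ha : ord V (ξ - a) ≤ ρ) (hb : ord V (ξ - b) ≤ ρ) :
    (e - p) * (e - p') ≤ e * (ord V (a - b) - ord V (ξ - a) - ord V (ξ - b) + ρ) := by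
  have h1 := term_ge (V := V) (ξ := ξ) hab
  have h3 := hp.lo
  have h4 := hp'.lo
  have h5 := hp.hi
  have h6 := hp'.hi
  have h2 : min (e - p) (e - p') ≤ ord V (a - b) - ord V (ξ - a) - ord V (ξ - b) + ρ := by
    by_cases h3 : p < e ∧ p' < e
    · obtain ⟨h7, h8⟩ := hp.le h3.1
      obtain ⟨h9, h10⟩ := hp'.le h3.2
      have h4 := ord_sub_right (V := V) (a := ξ) h7 (ge_of_le (by omega))
      have h5 := ord_sub_right (V := V) (a := ξ) h9 (ge_of_le (by omega))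
      have h6 := Ge.le' (ge_min_sub (V := V)) (sub_ne_zero.2 hab)
      omega
    · omega
  refine le_trans ?_ (mul_le_mul_of_nonneg_left h2 (by omega))
  rcases le_total (e - p) (e - p') with h7 | h7
  · rw [min_eq_left h7]; nlinarith
  · rw [min_eq_right h7]; nlinarith

theorem exists_generic (hC : ∀ c : ℂ, algebraMap ℂ W c ∈ V) (hf0 : f ≠ 0) (S : Set W)
    (hS : S.Finite) : ∃ c : ℂ, c ≠ 0 ∧ ∀ a ∈ S, ¬Ge V 1 (algebraMap ℂ W c - a) ∧
      ¬Ge V (ord V f + 1) (f / algebraMap ℂ W c - a) := by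
  have h0 : ∀ c c' : ℂ, Ge V 1 (algebraMap ℂ W c - algebraMap ℂ W c') → c = c' := fun c c' h => by
    by_contra h1
    rw [← map_sub, ge_iff (by simpa [sub_eq_zero] using h1), ord_hom _ hC] at h
    omega
  have h1 : ∀ a : W, {c : ℂ | Ge V 1 (algebraMap ℂ W c - a)}.Subsingleton := fun a c h c' h' =>
    h0 c c' (by simpa using Ge.sub h h')
  have h2 : ∀ a : W, {c : ℂ | Ge V (ord V f + 1) (f / algebraMap ℂ W c - a)}.Subsingleton :=
    fun a c h c' h' => inv_injective (h0 _ _ (by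
      have := Ge.sub h h'
      rw [sub_sub_sub_cancel_right, div_eq_mul_inv, div_eq_mul_inv, ← mul_sub, ge_mul_iff hf0] at this
      simpa using this))
  obtain ⟨c, hc⟩ := ((Set.finite_singleton 0).union (hS.biUnion fun a _ =>
    (h1 a).finite.union (h2 a).finite)).exists_notMem
  simp only [Set.mem_union, Set.mem_singleton_iff, Set.mem_iUnion, not_or, not_exists] at hc
  exact ⟨c, hc.1, fun a ha => hc.2 a ha⟩

/-- The order of the cross ratio function. -/
def Phi (V : ValuationSubring W) (ξ : W) {D : ℕ} (α β : Fin D → W) : ℤ :=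
  ∑ i, ∑ j, (ord V (α i - β j) - ord V (ξ - α i) - ord V (ξ - β j))

variable {D : ℕ} {α β : Fin D → W}

theorem Phi_add : ∑ i, ∑ j, (ord V (α i - β j) - ord V (ξ - α i) - ord V (ξ - β j) + ρ) =
    Phi V ξ α β + D ^ 2 * ρ := by
  simp only [Phi, Finset.sum_add_distrib, Finset.sum_const, Finset.card_univ, Fintype.card_fin,
    nsmul_eq_mul]
  ring

theorem Phi_ge (hab : ∀ i j, α i ≠ β j) (ha : ∀ i, ord V (ξ - α i) ≤ ρ)
    (hb : ∀ i, ord V (ξ - β i) ≤ ρ) : 0 ≤ Phi V ξ α β + D ^ 2 * ρ := by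
  rw [← Phi_add]
  refine Finset.sum_nonneg fun i _ => Finset.sum_nonneg fun j _ => ?_
  have := term_ge (V := V) (ξ := ξ) (hab i j)
  have := ha i
  have := hb j
  omega

theorem Phi_gain (he : 0 < e) {p p' : Fin D → ℤ} (hp : ∀ i, Clamp V e (α i) (p i))
    (hp' : ∀ i, Clamp V e (β i) (p' i)) (hs : 2 * ∑ i, p i = D * e) (hs' : 2 * ∑ i, p' i = D * e)
    (hab : ∀ i j, α i ≠ β j) (hξ : ξ ≠ 0) (h : ord V ξ ≤ 0 ∨ e ≤ ord V ξ) (hρ : ord V ξ ≤ ρ)
    (ha : ∀ i, ord V (ξ - α i) ≤ ρ) (hb : ∀ i, ord V (ξ - β i) ≤ ρ) :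
    D ^ 2 * e ≤ 4 * (Phi V ξ α β + D ^ 2 * ρ) := by
  have key : ∀ r r' : Fin D → ℤ, 2 * ∑ i, r i = D * e → 2 * ∑ i, r' i = D * e →
      (∀ i j, r i * r' j ≤ e * (ord V (α i - β j) - ord V (ξ - α i) - ord V (ξ - β j) + ρ)) →
      D ^ 2 * e ≤ 4 * (Phi V ξ α β + D ^ 2 * ρ) := fun r r' h1 h2 h3 => by
    have h4 : (∑ i, r i) * ∑ i, r' i ≤ e * (Phi V ξ α β + D ^ 2 * ρ) := by
      rw [← Phi_add, Finset.sum_mul_sum, Finset.mul_sum]
      refine Finset.sum_le_sum fun i _ => ?_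
      rw [Finset.mul_sum]
      exact Finset.sum_le_sum fun j _ => h3 i j
    refine le_of_mul_le_mul_left ?_ he
    calc e * (D ^ 2 * e) = (2 * ∑ i, r i) * (2 * ∑ i, r' i) := by rw [h1, h2]; ring
      _ ≤ _ := by linarith
  rcases h with h | h
  · exact key p p' hs hs' fun i j => gain_lo (hp i) (hp' j) (hab i j) hξ h (ha i) (hb j)
  · refine key (fun i => e - p i) (fun i => e - p' i) ?_ ?_ fun i j =>
      gain_hi (hp i) (hp' j) (hab i j) h (h.trans hρ) (ha i) (hb j)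
    all_goals
      simp only [Finset.sum_sub_distrib, Finset.sum_const, Finset.card_univ, Fintype.card_fin,
        nsmul_eq_mul]
      linarith

theorem Phi_eq (hab : ∀ i j, ord V (α i - β j) = 0) :
    Phi V ξ α β = -(D * (∑ i, ord V (ξ - α i) + ∑ i, ord V (ξ - β i))) := by
  simp only [Phi, hab, Finset.sum_sub_distrib, Finset.sum_const, Finset.card_univ, Fintype.card_fin,
    nsmul_eq_mul, ← Finset.mul_sum, zero_sub, Finset.sum_neg_distrib, mul_neg]
  ring

theorem prod_bound {ℓ : Z → W} (h0 : ∀ z, ℓ z ≠ 0) {g l : ℤ} {k : ℕ} (hl : ∀ z, ord V (ℓ z) ≤ l)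
    (h : ∀ A : Finset Z, (∀ z ∈ A, Ge V (g + 1) (ℓ z)) → A.card ≤ k) :
    ord V (∏ z, ℓ z) ≤ Fintype.card Z * min g l + k * (l - min g l) := by
  classical
  have h1 := h (Finset.univ.filter fun z => g < ord V (ℓ z)) fun z hz =>
    ge_of_le (Finset.mem_filter.1 hz).2
  rw [ord_prod _ _ fun z _ => h0 z]
  calc ∑ z, ord V (ℓ z) ≤ ∑ z, (min g l + if g < ord V (ℓ z) then l - min g l else 0) :=
        Finset.sum_le_sum fun z _ => by
          have := hl z
          split_ifs <;> omega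
    _ ≤ _ := by
      rw [Finset.sum_add_distrib, ← Finset.sum_filter, Finset.sum_const, Finset.sum_const,
        Finset.card_univ, nsmul_eq_mul, nsmul_eq_mul]
      gcongr
      omega

theorem exists_step (hV : Disc V) (hC : ∀ c : ℂ, algebraMap ℂ W c ∈ V) {y : κ → W}
    (hy : ∀ i, Ge V 0 (y i)) (h : ¬∀ w ∈ IntermediateField.adjoin ℂ (Set.range y), w ∈ V) :
    ∃ (i : κ) (T : Set κ), i ∉ T ∧ (∀ w ∈ IntermediateField.adjoin ℂ (y '' T), w ∈ V) ∧
      ∃ P : (IntermediateField.adjoin ℂ (y '' T))[X], P ≠ 0 ∧ Ge V 1 (aeval (y i) P) := by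
  by_contra h1
  have key : ∀ T : Finset κ, ∀ w ∈ IntermediateField.adjoin ℂ (y '' T), w ∈ V := by
    intro T
    induction T using Finset.induction_on with
    | empty =>
      intro w hw
      rw [Finset.coe_empty, Set.image_empty, IntermediateField.adjoin_empty] at hw
      obtain ⟨c, rfl⟩ := hw
      exact hC c
    | insert i T hi ih =>
      intro w hw
      rw [Finset.coe_insert, Set.image_insert_eq, ← Set.union_singleton,
        ← IntermediateField.adjoin_adjoin_left] at hw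
      exact by_contra fun h2 => h1 ⟨i, T, hi, ih, exists_poly hV (fun c => ih _ c.2) (hy i) hw h2⟩
  exact h (by simpa using key Finset.univ)

variable {ι : Type} [Fintype ι] [DecidableEq ι]

theorem Loc.ge {d : ι → Der W} (L : Loc V e Λ d) (ha : a ∈ Λ) (h : Ge V 1 a) : Ge V e a := by
  by_cases h0 : a = 0
  · exact Or.inl h0
  · exact ge_of_le (Int.le_of_dvd (Ge.le' h h0) (L.dvd a ha))

theorem Loc.le {d : ι → Der W} (L : Loc V e Λ d) (ha : a ∈ Λ) (h : ord V a < 0) : ord V a ≤ -e := by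
  have := Int.le_of_dvd (neg_pos.2 h) (L.dvd a ha).neg_right
  omega

theorem Loc.repl {d : ι → Der W} (L : Loc V e Λ d) {S : Set W} (hS : ∀ w ∈ S, w ∈ Λ) (ha : a ∈ Λ)
    (hV : ∀ w ∈ IntermediateField.adjoin ℂ S, w ∈ V) (h0 : Ge V 0 a)
    (h : ∃ P : (IntermediateField.adjoin ℂ S)[X], P ≠ 0 ∧ Ge V 1 (aeval a P)) :
    ∃ w u, Ge V e w ∧ u ≠ 0 ∧ ord V u = 0 ∧ ∀ δ : Der W, (∀ s ∈ S, δ s = 0) → δ w = u * δ a := by
  obtain ⟨g, -, g1, g2, g3, -⟩ := exists_min L.disc (fun c => hV _ c.2) h0 h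
  exact ⟨_, _, L.ge (aeval_mem' (fun c => (IntermediateField.adjoin_le_iff.2 hS : _ ≤ Λ) c.2) ha g)
    g1, g2, g3, fun δ hδ => der_aeval_eq (fun c => der_kill hδ (adjoin_le_Kb c.2)) a g⟩

/-- The coordinates `ξ, q, y`. -/
def bb (ξ q : W) (y : κ → W) : Option (Option κ) → W := fun o => o.elim ξ fun o => o.elim q y

variable {d : Option (Option κ) → Der W} {y : κ → W} {u w : W}

theorem J_xi (h : ∀ δ : Der W, δ q = 0 → (∀ i, δ (y i) = 0) → δ w = u * δ ξ) :
    J d (bb w q y) = u * J d (bb ξ q y) := by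
  rw [← J_update d (bb ξ q y) none fun δ hδ =>
    h δ (hδ (some none) (by simp)) fun i => hδ (some (some i)) (by simp)]
  congr 1
  ext (_ | _ | _) <;> simp [bb]

theorem J_q (h : ∀ δ : Der W, (∀ i, δ (y i) = 0) → δ w = u * δ q) :
    J d (bb ξ w y) = u * J d (bb ξ q y) := by
  rw [← J_update d (bb ξ q y) (some none) fun δ hδ => h δ fun i => hδ (some (some i)) (by simp)]
  congr 1
  ext (_ | _ | _) <;> simp [bb]

theorem J_y (i : κ) (h : ∀ δ : Der W, (∀ j ≠ i, δ (y j) = 0) → δ w = u * δ (y i)) :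
    J d (bb ξ q (Function.update y i w)) = u * J d (bb ξ q y) := by
  rw [← J_update d (bb ξ q y) (some (some i)) fun δ hδ =>
    h δ fun j hj => hδ (some (some j)) (by simpa using hj)]
  congr 1
  ext (_ | _ | j)
  · simp [bb]
  · simp [bb]
  · by_cases h : j = i <;> simp [bb, h]

theorem kill_ins {δ : Der W} (h1 : δ q = 0) (h2 : ∀ i, δ (y i) = 0)
    (h : a ∈ Kb (insert q (Set.range y))) : δ a = 0 :=
  der_kill (by rintro _ (rfl | ⟨i, rfl⟩); exacts [h1, h2 i]) h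

theorem J_sub (h : a ∈ Kb (insert q (Set.range y))) : J d (bb (ξ - a) q y) = J d (bb ξ q y) :=
  (J_xi (u := 1) fun δ h1 h2 => by simp [kill_ins h1 h2 h]).trans (one_mul _)

theorem sub_ne_of_J (hj : J d (bb ξ q y) ≠ 0) (h : a ∈ Kb (insert q (Set.range y))) : ξ - a ≠ 0 :=
  fun h0 => hj (by
    rw [← J_sub h, h0]
    exact (J_xi (ξ := 0) (u := 0) fun δ _ _ => by simp).trans (zero_mul _))

theorem Loc.jac (L : Loc V e Λ d) (hj : J d (bb ξ q y) ≠ 0) (ha : a ∈ Kb (insert q (Set.range y)))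
    {q' : W} {y' : κ → W} (hJ : J d (bb (ξ - a) q' y') = u * J d (bb (ξ - a) q y)) (hu0 : u ≠ 0)
    (hu : ord V u = 0) {k : ℤ} {n : κ → ℤ} (hq : Ge V k q') (hy : ∀ i, Ge V (n i) (y' i)) :
    ord V (ξ - a) + k + ∑ i, n i - e ≤ ord V (J d (bb ξ q y)) := by
  have h := L.J1 (bb (ξ - a) q' y') (fun o => o.elim (ord V (ξ - a)) fun o => o.elim k n) (by
    rintro (_ | _ | i)
    exacts [ge_ord, hq, hy i])
  rw [hJ, J_sub ha, ge_mul_iff hu0, hu, ge_iff hj] at h
  simp only [Fintype.sum_option, Option.elim] at h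
  omega

end Pool.Agent.Lib.NRC
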