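import Pool.Agent.Lib.NRC.C1

/-! The local estimate. -/

open scoped IntermediateField
open Module Polynomial

set_option linter.unusedSectionVars false

noncomputable section

namespace Pool.Agent.Lib.NRC

open Pool.Agent.Lib.MP_7fcda1_ag

variable {W : Type} [Field W] [Algebra ℂ W] {V : ValuationSubring W} {e : ℤ}
  {κ Z : Type} [Fintype κ] [DecidableEq κ] [Fintype Z] {Λ : IntermediateField ℂ W} {D : ℕ}

/-- The geometric data of the conic bundle. -/
structure Geo (Λ : IntermediateField ℂ W) (ξ q r A B x u : W) (y : κ → W) (ℓ : Z → W)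
    (α β : Fin D → W) : Prop where
  y_mem : ∀ i, y i ∈ Λ
  q_mem : q ∈ Λ
  A_mem : A ∈ Λ
  B_mem : B ∈ Λ
  f_mem : ∏ z, ℓ z ∈ Λ
  xi_eq : ξ = A + r * B
  f_eq : ∏ z, ℓ z = ξ * (A - r * B)
  r_mem : r ∈ Kb (Set.range y)
  r_ne : r ≠ 0
  l_mem : ∀ z, ℓ z - 2 * q ∈ Kb (Set.range y)
  l_ne : ∀ z, ℓ z ≠ 0
  l_inj : Function.Injective ℓ
  a_mem : ∀ i, α i ∈ Kb (insert q (Set.range y))
  b_mem : ∀ i, β i ∈ Kb (insert q (Set.range y))
  ab : ∀ i j, α i ≠ β j
  u_mem : u ∈ Kb (insert q (Set.range y))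
  u_ne : u ≠ 0
  x_eq : x * ∏ i, (ξ - β i) = u * ∏ i, (ξ - α i)
  card : 4 * Fintype.card κ * (Fintype.card κ + 2) ≤ Fintype.card Z
  pos : 0 < Fintype.card κ

variable {ξ q r A B x u : W} {y : κ → W} {ℓ : Z → W} {α β : Fin D → W}
  {d : Option (Option κ) → Der W}

theorem J_add (h : r ∈ Kb (insert q (Set.range y))) :
    J d (bb (A + r * B) q y) = J d (bb A q y) + r * J d (bb B q y) := by
  obtain ⟨δ, h1, h2⟩ := exists_slot d (bb A q y) none
  have h3 : ∀ w, δ w = J d (bb w q y) := fun w => by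
    rw [h1]
    congr 1
    ext (_ | _ | _) <;> simp [bb]
  simp [← h3, kill_ins (h2 (some none) (by simp)) (fun i => h2 (some (some i)) (by simp)) h]

theorem two_unit (hC : ∀ c : ℂ, algebraMap ℂ W c ∈ V) : (2 : W) ≠ 0 ∧ ord V (2 : W) = 0 := by
  have h : (2 : W) = algebraMap ℂ W 2 := (map_ofNat _ 2).symm
  exact ⟨by simp [h], h ▸ ord_hom _ hC 2⟩

theorem Geo.f_ne (G : Geo Λ ξ q r A B x u y ℓ α β) : ∏ z, ℓ z ≠ 0 :=
  Finset.prod_ne_zero_iff.2 fun z _ => G.l_ne z

theorem Geo.horizontal (G : Geo Λ ξ q r A B x u y ℓ α β) (L : Loc V e Λ d)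
    (hj : J d (bb ξ q y) ≠ 0) (hf : ord V (∏ z, ℓ z) = 0)
    (hK : ∀ w ∈ IntermediateField.adjoin ℂ (insert q (Set.range y)), w ∈ V) :
    -(D * |ord V x|) ≤ D ^ 2 * ord V (J d (bb ξ q y)) + Phi V ξ α β := by
  have hd : ∀ a, a ∈ Kb (insert q (Set.range y)) → Ge V 0 a := fun a ha =>
    (mem_iff_ge (Or.inl L.disc)).1 (Kb_mem hK ha)
  have hq := hd q (subset_Kb (Or.inl rfl))
  have hy := fun i => hd (y i) (subset_Kb (Or.inr ⟨i, rfl⟩))
  have hr := Kb_mono (Set.subset_insert q _) G.r_mem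
  obtain ⟨h2, h2'⟩ := two_unit L.const
  have hab : ∀ i j, ord V (α i - β j) = 0 := fun i j => Kb_ord hK (sub_mem (G.a_mem i) (G.b_mem j))
  have ha := fun i => sub_ne_of_J hj (G.a_mem i)
  have hb := fun i => sub_ne_of_J hj (G.b_mem i)
  have hf0 := G.f_ne
  rw [G.f_eq] at hf hf0
  have hξ := left_ne_zero_of_mul hf0
  have hη := right_ne_zero_of_mul hf0
  rw [ord_mul hξ hη] at hf
  have hA : ∀ k, ord V (ξ - -(A - r * B)) = k → ord V A = k := fun k h => by
    rw [show ξ - -(A - r * B) = 2 * A by rw [G.xi_eq]; ring] at h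
    by_cases h0 : A = 0
    · simpa [h0] using h
    · rwa [ord_mul h2 h0, h2', zero_add] at h
  have h3 := L.jac hj (zero_mem _) (one_mul _).symm one_ne_zero ord_one hq hy
  simp only [sub_zero, add_zero, Finset.sum_const_zero] at h3
  have hD : (0 : ℤ) ≤ D := Int.natCast_nonneg D
  rw [Phi_eq hab]
  rcases lt_or_ge (ord V ξ) 0 with h | h
  · have h4 : ∀ a ∈ Kb (insert q (Set.range y)), ord V (ξ - a) = ord V ξ := fun a ha =>
      ord_sub_left hξ ((hd a ha).mono (by omega))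
    have h5 := hA _ (ord_sub_left hξ (ge_of_le (by rw [ord_neg]; omega)))
    have h6 := L.le G.A_mem (by omega)
    simp only [h4 _ (G.a_mem _), h4 _ (G.b_mem _), Finset.sum_const, Finset.card_univ,
      Fintype.card_fin, nsmul_eq_mul]
    have h7 := mul_nonneg hD (abs_nonneg (ord V x))
    have h8 := mul_le_mul_of_nonneg_left (show 2 * ord V ξ ≤ ord V (J d (bb ξ q y)) by omega)
      (sq_nonneg (D : ℤ))
    nlinarith
  have h4 : 0 ≤ ord V (J d (bb ξ q y)) := by
    rcases h.eq_or_lt with h | h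
    · have h5 : Ge V 0 A := by
        have := (ge_of_le (V := V) h.le).add (ge_of_le (a := A - r * B) (by omega))
        rwa [show ξ + (A - r * B) = 2 * A by rw [G.xi_eq]; ring, ge_mul_iff h2, h2'] at this
      have h6 : Ge V 0 B := by
        have := (ge_of_le (V := V) h.le).sub (ge_of_le (a := A - r * B) (by omega))
        rwa [show ξ - (A - r * B) = 2 * (r * B) by rw [G.xi_eq]; ring, ge_mul_iff h2, h2',
          ge_mul_iff G.r_ne, Kb_ord hK hr] at this
      have h7 : ∀ w ∈ Λ, Ge V 0 w → Ge V 0 (J d (bb w q y)) := fun w h1 h2 => L.J2 _ (by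
        rintro (_ | _ | i)
        exacts [⟨h1, h2⟩, ⟨G.q_mem, hq⟩, ⟨G.y_mem i, hy i⟩])
      refine Ge.le' ?_ hj
      rw [G.xi_eq, J_add hr]
      exact (h7 _ G.A_mem h5).add (Ge.mul' (hd _ hr) (h7 _ G.B_mem h6) (by simp))
    · have h5 := hA _ (ord_sub_right (neg_ne_zero.2 hη) (ge_of_le (by rw [ord_neg]; omega)))
      rw [ord_neg] at h5
      have h6 := L.le G.A_mem (by omega)
      omega
  have h5 := fun i => Ge.le' ((ge_of_le h).sub (hd _ (G.a_mem i))) (ha i)
  have h6 := fun i => Ge.le' ((ge_of_le h).sub (hd _ (G.b_mem i))) (hb i)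
  have h7 : ∑ i, ord V (ξ - α i) = 0 ∨ ∑ i, ord V (ξ - β i) = 0 := by
    by_contra h7
    obtain ⟨i, -, hi⟩ := Finset.exists_ne_zero_of_sum_ne_zero fun h => h7 (Or.inl h)
    obtain ⟨j, -, hj⟩ := Finset.exists_ne_zero_of_sum_ne_zero fun h => h7 (Or.inr h)
    have := term_ge (V := V) (ξ := ξ) (G.ab i j)
    have := hab i j
    have := h5 i
    have := h6 j
    omega
  have h8 := Finset.prod_ne_zero_iff.2 fun i (_ : i ∈ Finset.univ) => ha i
  have h9 := congrArg (ord V) G.x_eq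
  rw [ord_mul (left_ne_zero_of_mul (G.x_eq ▸ mul_ne_zero G.u_ne h8))
    (Finset.prod_ne_zero_iff.2 fun i _ => hb i), ord_mul G.u_ne h8, Kb_ord hK G.u_mem,
    ord_prod _ _ fun i _ => ha i, ord_prod _ _ fun i _ => hb i] at h9
  have h10 : ∑ i, ord V (ξ - α i) + ∑ i, ord V (ξ - β i) ≤ |ord V x| := by
    have := le_abs_self (ord V x)
    have := neg_le_abs (ord V x)
    omega
  have h11 := mul_le_mul_of_nonneg_left h10 hD
  have h12 := mul_nonneg (sq_nonneg (D : ℤ)) h4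
  linarith

theorem Geo.local (G : Geo Λ ξ q r A B x u y ℓ α β) (L : Loc V e Λ d) (hj : J d (bb ξ q y) ≠ 0)
    (hF : ∀ g : ℤ, g ≤ 0 ∧ (g = 0 ∨ ¬Ge V (g + 1) q ∨ ∃ i, ¬Ge V (g + 1) (y i)) →
      ∀ S : Finset Z, (∀ z ∈ S, Ge V (g + 1) (ℓ z)) → S.card ≤ 2 * Fintype.card κ)
    (hG : (∀ w ∈ IntermediateField.adjoin ℂ (Set.range y), w ∈ V) → ∀ z, Ge V 1 (ℓ z) →
      ∀ c : ℂ, c ≠ 0 → ∀ γ, γ = α ∨ γ = β → (∀ i, (∏ z, ℓ z) / algebraMap ℂ W c - γ i ≠ 0 ∧
        algebraMap ℂ W c - γ i ≠ 0) → 2 * ∑ i, (ord V ((∏ z, ℓ z) / algebraMap ℂ W c - γ i) -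
          ord V (algebraMap ℂ W c - γ i)) = D * ord V (∏ z, ℓ z)) :
    -(4 * Fintype.card κ * D * |ord V x|) ≤ 4 * Fintype.card κ * D ^ 2 * ord V (J d (bb ξ q y)) +
      4 * Fintype.card κ * Phi V ξ α β - D ^ 2 * ord V (∏ z, ℓ z) := by
  classical
  have hd : ∀ a, a ∈ V ↔ Ge V 0 a := fun a => mem_iff_ge (Or.inl L.disc)
  obtain ⟨h2, h2'⟩ := two_unit L.const
  have he := L.pos
  have hm : (4 * Fintype.card κ * (Fintype.card κ + 2) : ℤ) ≤ Fintype.card Z := by
    exact_mod_cast G.card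
  have ha : (1 : ℤ) ≤ Fintype.card κ := by exact_mod_cast G.pos
  set a : ℤ := (Fintype.card κ : ℤ) with ha'
  set m : ℤ := (Fintype.card Z : ℤ) with hm'
  obtain ⟨t, ht, ht'⟩ := Finset.exists_max_image
    (insert 0 (Finset.univ.image α ∪ Finset.univ.image β)) (fun t => ord V (ξ - t))
    (Finset.insert_nonempty _ _)
  have ht0 : ord V ξ ≤ ord V (ξ - t) := by simpa using ht' 0 (by simp)
  have hta : ∀ i, ord V (ξ - α i) ≤ ord V (ξ - t) := fun i => ht' _ (by simp)
  have htb : ∀ i, ord V (ξ - β i) ≤ ord V (ξ - t) := fun i => ht' _ (by simp)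
  replace ht : t ∈ Kb (insert q (Set.range y)) := by
    simp only [Finset.mem_insert, Finset.mem_union, Finset.mem_image] at ht
    rcases ht with rfl | ⟨i, -, rfl⟩ | ⟨i, -, rfl⟩
    exacts [zero_mem _, G.a_mem i, G.b_mem i]
  have hZ : Nonempty Z := Fintype.card_pos_iff.1 (by
    have : (0 : ℤ) < m := by nlinarith
    exact Int.natCast_pos.1 this)
  obtain ⟨z, hz⟩ := Finite.exists_max fun z => ord V (ℓ z)
  have hΦ := Phi_ge G.ab hta htb
  have hD := sq_nonneg (D : ℤ)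
  have red : ∀ k g : ℤ, ord V (ξ - t) + k - e ≤ ord V (J d (bb ξ q y)) →
      g ≤ 4 * (Phi V ξ α β + D ^ 2 * ord V (ξ - t)) →
      D ^ 2 * ord V (∏ z, ℓ z) ≤ D ^ 2 * (4 * a * (k - e)) + a * g →
      -(4 * a * D * |ord V x|) ≤ 4 * a * D ^ 2 * ord V (J d (bb ξ q y)) +
      4 * a * Phi V ξ α β - D ^ 2 * ord V (∏ z, ℓ z) := fun k g h1 h3 h4 => by
    have h5 : 0 ≤ 4 * a * D * |ord V x| := by positivity
    have h6 := mul_le_mul_of_nonneg_left h1 (show 0 ≤ 4 * a * D ^ 2 by positivity)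
    have h7 := mul_le_mul_of_nonneg_left h3 (show 0 ≤ a by omega)
    linarith
  have red0 : ∀ k : ℤ, ord V (ξ - t) + k - e ≤ ord V (J d (bb ξ q y)) →
      ord V (∏ z, ℓ z) ≤ 4 * a * (k - e) → _ := fun k h1 h3 =>
    red k 0 h1 (by omega) (by simpa using mul_le_mul_of_nonneg_left h3 hD)
  have hl : J d (bb (ξ - t) (ℓ z) y) = 2 * J d (bb (ξ - t) q y) := J_q fun δ hδ => by
    have := der_kill (δ := δ) (by rintro _ ⟨i, rfl⟩; exact hδ i) (G.l_mem z)
    rw [map_sub, sub_eq_zero, two_mul, map_add] at this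
    rw [this, two_mul]
  obtain ⟨o, ho⟩ := Finite.exists_min fun o : Option κ => ord V (o.elim q y)
  set g := ord V (o.elim q y) with hg
  rcases lt_or_ge g 0 with h | h
  · have h3 : ¬Ge V (g + 1) (o.elim q y) := by
      rw [ge_iff fun h0 => by simp [hg, h0] at h]
      omega
    have h4 : g ≤ -e := L.le (by cases o; exacts [G.q_mem, G.y_mem _]) h
    have h5 := prod_bound G.l_ne hz (hF g ⟨h.le, Or.inr (by
      cases o
      exacts [Or.inl h3, Or.inr ⟨_, h3⟩])⟩)
    have h6 := L.jac hj ht hl h2 h2' ge_ord (n := fun _ => g) fun i => ge_of_le (ho (some i))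
    simp only [Finset.sum_const, Finset.card_univ, nsmul_eq_mul] at h6
    refine red0 (ord V (ℓ z) + a * g) (by linarith) (h5.trans ?_)
    push_cast
    rw [← ha', ← hm']
    have h7 := mul_le_mul_of_nonneg_left h4 (show 0 ≤ a by omega)
    rcases le_total g (ord V (ℓ z)) with h8 | h8
    · rw [min_eq_left h8]
      have := mul_le_mul_of_nonneg_left h8 (show 0 ≤ a by omega)
      have := mul_le_mul_of_nonpos_right hm h.le
      nlinarith
    · rw [min_eq_right h8]
      have := mul_le_mul_of_nonneg_left h8 (show 0 ≤ a * (a + 1) by positivity)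
      have := mul_le_mul_of_nonpos_right hm (h8.trans h.le)
      nlinarith
  have hq : Ge V 0 q := ge_of_le (h.trans (ho none))
  have hy : ∀ i, Ge V 0 (y i) := fun i => ge_of_le (h.trans (ho (some i)))
  by_cases hk : ∀ w ∈ IntermediateField.adjoin ℂ (Set.range y), w ∈ V
  swap
  · obtain ⟨i, T, h3, h4, h5⟩ := exists_step L.disc L.const hy hk
    obtain ⟨w, u', h6, h7, h8, h9⟩ := L.repl (by rintro _ ⟨j, -, rfl⟩; exact G.y_mem j)
      (G.y_mem i) h4 (hy i) h5
    have h10 := J_y (d := d) (ξ := ξ - t) (q := ℓ z) i fun δ hδ => h9 δ (by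
      rintro _ ⟨j, hj, rfl⟩
      exact hδ j fun h => h3 (h ▸ hj))
    rw [hl, ← mul_assoc] at h10
    have h11 := L.jac hj ht h10 (mul_ne_zero h7 h2) (by simp [ord_mul h7 h2, h8, h2']) ge_ord
      (n := Pi.single i e) fun j => by
        by_cases h : j = i
        · simpa [h] using h6
        · simpa [h] using hy j
    have h12 := prod_bound G.l_ne hz (hF 0 ⟨le_rfl, Or.inl rfl⟩)
    simp only [Finset.sum_pi_single', Finset.mem_univ, if_true] at h11
    refine red0 (ord V (ℓ z) + e) (by linarith) (h12.trans ?_)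
    push_cast
    rw [← ha', ← hm']
    rcases le_total 0 (ord V (ℓ z)) with h8 | h8
    · rw [min_eq_left h8]
      nlinarith
    · rw [min_eq_right h8]
      have := mul_le_mul_of_nonpos_right hm h8
      have := mul_nonneg (show 0 ≤ a * (a + 1) by positivity) (neg_nonneg.2 h8)
      nlinarith
  have h3 : ∀ z, 0 ≤ ord V (ℓ z) := fun z => Ge.le' (by
    simpa using ((hd _).1 (Kb_mem hk (G.l_mem z))).add
      (Ge.mul' (ge_of_le h2'.ge) hq (by simp))) (G.l_ne z)
  have h4 : ord V (∏ z, ℓ z) = ord V (ℓ z) := by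
    rw [ord_prod _ _ fun z _ => G.l_ne z]
    refine Finset.sum_eq_single z (fun z' _ h => ?_) (by simp)
    have h5 := Kb_ord hk (sub_mem (G.l_mem z') (G.l_mem z))
    rw [sub_sub_sub_cancel_right] at h5
    have h6 := Ge.le' (ge_min_sub (V := V)) (sub_ne_zero.2 fun h' => h (G.l_inj h'))
    have := h3 z'
    have := hz z'
    omega
  have h5 := L.jac hj ht hl h2 h2' ge_ord hy
  simp only [Finset.sum_const_zero, add_zero] at h5
  obtain ⟨k, hk'⟩ := L.dvd _ G.f_mem
  have h6 : 0 ≤ k := by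
    have := h3 z
    by_contra h
    nlinarith
  rcases (by omega : k = 0 ∨ k = 1 ∨ 2 ≤ k) with rfl | rfl | h7
  · rw [mul_zero] at hk'
    by_cases hK : ∀ w ∈ IntermediateField.adjoin ℂ (insert q (Set.range y)), w ∈ V
    · have := mul_le_mul_of_nonneg_left (G.horizontal L hj hk' hK) (show 0 ≤ 4 * a by omega)
      rw [hk']
      linarith
    · push Not at hK
      obtain ⟨w, hw, hw'⟩ := hK
      rw [← Set.union_singleton, ← IntermediateField.adjoin_adjoin_left] at hw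
      obtain ⟨w', u', h8, h9, h10, h11⟩ := L.repl (by rintro _ ⟨j, rfl⟩; exact G.y_mem j)
        G.q_mem hk hq (exists_poly L.disc (fun c => hk _ c.2) hq hw hw')
      have h12 := L.jac hj ht (J_q fun δ hδ => h11 δ (by rintro _ ⟨j, rfl⟩; exact hδ j)) h9 h10
        h8 hy
      simp only [Finset.sum_const_zero, add_zero] at h12
      exact red0 e h12 (by simp [hk'])
  · rw [mul_one] at hk'
    obtain ⟨c, hc, hc'⟩ := exists_generic L.const G.f_ne (Set.range α ∪ Set.range β)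
      ((Set.finite_range _).union (Set.finite_range _))
    have h8 : ord V (algebraMap ℂ W c) = 0 := ord_hom _ L.const c
    have h9 : ord V ((∏ z, ℓ z) / algebraMap ℂ W c) = e := by
      rw [ord_div G.f_ne (by simpa using hc), h8, hk', sub_zero]
    have h10 := fun a ha => clamp_of he h8 h9 (hc' a ha).1 (hk' ▸ (hc' a ha).2)
    have h11 := fun γ hγ (h : ∀ i, γ i ∈ Set.range α ∪ Set.range β) =>
      hG hk z (ge_of_le (by omega)) c hc γ hγ fun i =>
        ⟨fun h' => (hc' _ (h i)).2 (Or.inl h'), fun h' => (hc' _ (h i)).1 (Or.inl h')⟩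
    have hf0 := G.f_ne
    rw [G.f_eq] at hf0
    have hξ := left_ne_zero_of_mul hf0
    have h12 : ord V ξ ≤ 0 ∨ e ≤ ord V ξ := by
      by_contra h
      have h13 : Ge V 1 ξ := ge_of_le (by omega)
      have h14 : Ge V 1 (A - r * B) := by
        rw [G.f_eq, ord_mul hξ (right_ne_zero_of_mul hf0)] at hk'
        exact ge_of_le (by omega)
      have h15 := h13.add h14
      have h16 := h13.sub h14
      rw [show ξ + (A - r * B) = 2 * A by rw [G.xi_eq]; ring, ge_mul_iff h2, h2'] at h15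
      rw [show ξ - (A - r * B) = 2 * (r * B) by rw [G.xi_eq]; ring, ge_mul_iff h2, h2',
        ge_mul_iff G.r_ne, Kb_ord hk G.r_mem] at h16
      have h17 := (L.ge G.A_mem h15).add
        (Ge.mul' (ge_of_le (Kb_ord hk G.r_mem).ge) (L.ge G.B_mem h16) (by simp))
      rw [← G.xi_eq, ge_iff hξ] at h17
      omega
    refine red e (D ^ 2 * e) (by omega) (Phi_gain he (fun i => h10 _ (Or.inl ⟨i, rfl⟩))
      (fun i => h10 _ (Or.inr ⟨i, rfl⟩)) (hk' ▸ h11 α (Or.inl rfl) fun i => Or.inl ⟨i, rfl⟩)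
      (hk' ▸ h11 β (Or.inr rfl) fun i => Or.inr ⟨i, rfl⟩) G.ab hξ h12 ht0 hta htb) ?_
    have := mul_le_mul_of_nonneg_right ha (mul_nonneg hD he.le)
    rw [hk']
    linarith
  · refine red0 _ h5 ?_
    rw [← h4, hk']
    have := mul_le_mul_of_nonneg_left h7 he.le
    have := mul_le_mul_of_nonneg_right ha (show 0 ≤ e * k - e by linarith)
    linarith

end Pool.Agent.Lib.NRC
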