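import Pool.Agent.Lib.NRC.Defs
import Pool.Agent.Lib.CPD.E

/-! The example: nonvanishing statements, the reflections, and the branch count. -/

open scoped IntermediateField
open Module

set_option linter.unusedSectionVars false

noncomputable section

namespace Pool.Agent.Lib.NRC

open Pool.Agent.Lib.MP_7fcda1_ag

variable {E : Type} [Field E] [Algebra ℂ E] {n m : ℕ} [NeZero m] {ξ q s : E} {p : Fin n → E}

theorem char0 (E : Type) [Field E] [Algebra ℂ E] : CharZero E :=
  charZero_of_injective_algebraMap (algebraMap ℂ E).injective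

theorem cz_ne (z : U m) : cz E z ≠ 0 := by simp [cz]

theorem cz_pow (z : U m) : cz E z ^ m = 1 := by
  rw [cz, ← map_pow, ← Units.val_pow_eq_pow_val, (mem_rootsOfUnity _ _).1 z.2]
  simp

theorem cz_mul (z w : U m) : cz E (z * w) = cz E z * cz E w := by simp [cz]

theorem cz_inv (z : U m) : cz E z⁻¹ = (cz E z)⁻¹ := by simp [cz]

theorem cz_one : cz E (1 : U m) = 1 := by simp [cz]

theorem cz_inj : Function.Injective (cz E : U m → E) := fun _ _ h =>
  Subtype.ext (Units.ext ((algebraMap ℂ E).injective h))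

theorem cz_alg (z : U m) : IsAlgebraic ℂ (cz E z) := isAlgebraic_algebraMap _

theorem hom_cz (σ : E →ₐ[ℂ] E) (z : U m) : σ (cz E z) = cz E z := σ.commutes _

theorem T_inv (k : ℕ) (s : E) : T k s⁻¹ = T k s := by rw [T, T, inv_inv, add_comm]

theorem ell_inv (s : E) : ell m q p s⁻¹ = ell m q p s := by simp only [ell, T_inv]

theorem hom_T (σ : E →ₐ[ℂ] E) (k : ℕ) (s : E) : σ (T k s) = T k (σ s) := by simp [T]

theorem hom_ell {σ : E →ₐ[ℂ] E} (hq : σ q = q) (hp : ∀ i, σ (p i) = p i) (s : E) :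
    σ (ell m q p s) = ell m q p (σ s) := by
  simp only [ell, map_add, map_mul, map_sum, hom_T, hq, hp, map_ofNat]

theorem T_mem {K : IntermediateField ℂ E} (hs : s ∈ K) (k : ℕ) : T k s ∈ K :=
  add_mem (pow_mem hs _) (pow_mem (inv_mem hs) _)

theorem two_mem (K : IntermediateField ℂ E) : (2 : E) ∈ K := ofNat_mem K 2

theorem ell_mem {K : IntermediateField ℂ E} (hq : q ∈ K) (hp : ∀ i, p i ∈ K) (hs : s ∈ K) :
    ell m q p s ∈ K :=
  add_mem (add_mem (mul_mem (two_mem K) hq) (T_mem hs _))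
    (sum_mem fun i _ => mul_mem (hp i) (T_mem hs _))

theorem cz_mem (K : IntermediateField ℂ E) (z : U m) : cz E z ∈ K := K.algebraMap_mem _

theorem ff_mem_of {K : IntermediateField ℂ E} (hq : q ∈ K) (hp : ∀ i, p i ∈ K) (hs : s ∈ K) :
    ff m q p s ∈ K :=
  prod_mem fun z _ => ell_mem hq hp (mul_mem (cz_mem K z) hs)

theorem ff_mul (z : U m) (s : E) : ff m q p (cz E z * s) = ff m q p s := by
  refine Fintype.prod_equiv (Equiv.mulRight z) _ _ fun w => ?_
  rw [Equiv.coe_mulRight, cz_mul, mul_assoc]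

theorem ff_inv (s : E) : ff m q p s⁻¹ = ff m q p s := by
  refine Fintype.prod_equiv (Equiv.inv _) _ _ fun w => ?_
  rw [Equiv.inv_apply, cz_inv, ← ell_inv, mul_inv, inv_inv]

theorem hom_ff {σ : E →ₐ[ℂ] E} (hq : σ q = q) (hp : ∀ i, σ (p i) = p i) (s : E) :
    σ (ff m q p s) = ff m q p (σ s) := by
  simp only [ff, map_prod, hom_ell hq hp, map_mul, hom_cz]

theorem T_mul (z : U m) (s : E) : T m (cz E z * s) = T m s := by
  rw [T, T, mul_inv, mul_pow, mul_pow, inv_pow (cz E z), cz_pow, inv_one, one_mul, one_mul]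

theorem rr_mul (z : U m) (s : E) : rr m (cz E z * s) = rr m s := by
  rw [rr, rr, mul_inv, mul_pow, mul_pow, inv_pow (cz E z), cz_pow, inv_one, one_mul, one_mul]

theorem rr_inv (s : E) : rr m s⁻¹ = -rr m s := by rw [rr, rr, inv_inv, neg_sub]

theorem hom_rr (σ : E →ₐ[ℂ] E) (s : E) : σ (rr m s) = rr m (σ s) := by simp [rr]

theorem gen_top (h : Ex ξ q s p) {K : IntermediateField ℂ E} (hξ : ξ ∈ K) (hq : q ∈ K)
    (hs : s ∈ K) (hp : ∀ i, p i ∈ K) : K = ⊤ := by
  rw [eq_top_iff, ← h.gen, IntermediateField.adjoin_le_iff]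
  rintro _ ⟨_ | _ | _ | i, rfl⟩
  exacts [hξ, hq, hs, hp i]

theorem fam_mem (ξ q s : E) (p : Fin n → E) :
    ξ ∈ IntermediateField.adjoin ℂ (Set.range (fam ξ q s p)) ∧
    q ∈ IntermediateField.adjoin ℂ (Set.range (fam ξ q s p)) ∧
    s ∈ IntermediateField.adjoin ℂ (Set.range (fam ξ q s p)) ∧
    ∀ i, p i ∈ IntermediateField.adjoin ℂ (Set.range (fam ξ q s p)) :=
  ⟨IntermediateField.subset_adjoin _ _ ⟨none, rfl⟩,
    IntermediateField.subset_adjoin _ _ ⟨some none, rfl⟩,
    IntermediateField.subset_adjoin _ _ ⟨some (some none), rfl⟩,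
    fun i => IntermediateField.subset_adjoin _ _ ⟨some (some (some i)), rfl⟩⟩

theorem Ex.basis (h : Ex ξ q s p) : IsTranscendenceBasis ℂ (fam ξ q s p) := by
  rw [h.indep.isTranscendenceBasis_iff_isAlgebraic, ← IntermediateField.isAlgebraic_adjoin_iff_top]
  exact ⟨fun w => isAlgebraic_algebraMap
    (⟨w, h.gen ▸ IntermediateField.mem_top⟩ : IntermediateField.adjoin ℂ (Set.range (fam ξ q s p)))⟩

theorem Ex.s_tr (h : Ex ξ q s p) : Transcendental ℂ s := h.indep.transcendental (some (some none))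

theorem Ex.s_ne (h : Ex ξ q s p) : s ≠ 0 := h.indep.ne_zero (some (some none))

theorem Ex.xi_ne (h : Ex ξ q s p) : ξ ≠ 0 := h.indep.ne_zero none

theorem Ex.pow_ne (h : Ex ξ q s p) {k : ℕ} (hk : 0 < k) {a b : E} (ha : IsAlgebraic ℂ a)
    (hb : IsAlgebraic ℂ b) (h0 : a ≠ 0) : a * s ^ k ≠ b * s⁻¹ ^ k := fun h1 => by
  refine (h.s_tr.pow (n := k + k) (by omega)) ?_
  have h2 : s ^ (k + k) = a⁻¹ * b := by
    have := h.s_ne
    rw [pow_add, eq_inv_mul_iff_mul_eq₀ h0, ← mul_assoc, h1, mul_assoc, ← mul_pow,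
      inv_mul_cancel₀ this, one_pow, mul_one]
  rw [h2]
  exact ha.inv.mul hb

theorem Ex.rr_ne (h : Ex ξ q s p) : rr m s ≠ 0 := fun h1 =>
  h.pow_ne (NeZero.pos m) isAlgebraic_one isAlgebraic_one one_ne_zero
    (by rw [one_mul, one_mul]; exact sub_eq_zero.1 h1)

theorem der_T {δ : Der E} (hs : δ s = 0) (k : ℕ) (z : U m) : δ (T k (cz E z * s)) = 0 :=
  have h : cz E z * s ∈ Kb {s} := mul_mem (cz_mem (Kb {s}) z) (subset_Kb (Set.mem_singleton s))
  der_kill (S := {s}) (by rintro _ rfl; exact hs) (T_mem h k)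

theorem der_ell {δ : Der E} (hs : δ s = 0) (z : U m) :
    δ (ell m q p (cz E z * s)) = 2 * δ q + ∑ i : Fin n, T (i + 2) (cz E z * s) * δ (p i) := by
  have h2 : δ 2 = 0 := by exact_mod_cast δ.map_natCast 2
  simp only [ell, map_add, map_sum, Derivation.leibniz, der_T hs, h2, smul_eq_mul, mul_zero,
    add_zero, zero_add]

theorem Ex.ell_ne (h : Ex ξ q s p) (z : U m) : ell m q p (cz E z * s) ≠ 0 := fun h1 => by
  classical
  have := char0 E
  obtain ⟨d, hd⟩ := exists_dual h.basis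
  have h2 := der_ell (q := q) (p := p) (δ := d (some none))
    (by simpa [fam] using hd (some none) (some (some none))) z
  have h3 : d (some none) q = 1 := by simpa [fam] using hd (some none) (some none)
  have h4 : ∀ i, d (some none) (p i) = 0 := fun i => by
    simpa [fam] using hd (some none) (some (some (some i)))
  simp [h1, h3, h4] at h2

theorem Ex.ell_inj (h : Ex ξ q s p) : Function.Injective fun z : U m => ell m q p (cz E z * s) :=
  fun z w (h1 : ell m q p (cz E z * s) = ell m q p (cz E w * s)) => by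
  classical
  obtain ⟨d, hd⟩ := exists_dual h.basis
  have h2 : ∀ i : Fin n, T (i + 2) (cz E z * s) = T (i + 2) (cz E w * s) := fun i => by
    have hs : d (some (some (some i))) s = 0 := by
      simpa [fam] using hd (some (some (some i))) (some (some none))
    have h3 : ∀ j, d (some (some (some i))) (p j) = if i = j then 1 else 0 := fun j => by
      simpa [fam] using hd (some (some (some i))) (some (some (some j)))
    have h4 := congrArg (d (some (some (some i)))) h1
    simpa [der_ell hs, h3] using h4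
  simp only [ell, h2, add_left_inj, add_right_inj] at h1
  have h5 : ∀ z : U m, T (m + 1) (cz E z * s) = cz E z * s ^ (m + 1) + cz E z⁻¹ * s⁻¹ ^ (m + 1) :=
    fun z => by
      rw [T, mul_inv, mul_pow, mul_pow, ← cz_inv, pow_succ (cz E z), pow_succ (cz E z⁻¹), cz_pow,
        cz_pow, one_mul, one_mul]
  by_contra h6
  refine h.pow_ne (k := m + 1) (by omega) ((cz_alg z).sub (cz_alg w))
    ((cz_alg w⁻¹).sub (cz_alg z⁻¹)) (sub_ne_zero.2 (cz_inj.ne h6)) ?_
  rw [h5, h5] at h1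
  linear_combination h1

theorem Ex.ff_ne (h : Ex ξ q s p) : ff m q p s ≠ 0 :=
  Finset.prod_ne_zero_iff.2 fun z _ => h.ell_ne z

theorem LL_mem (m : ℕ) [NeZero m] (ξ q s : E) (p : Fin n → E) :
    YY m ξ q s p ∈ LL m ξ q s p ∧ ZZ m ξ q s p ∈ LL m ξ q s p ∧ q ∈ LL m ξ q s p ∧
      T m s ∈ LL m ξ q s p ∧ ∀ i, p i ∈ LL m ξ q s p :=
  ⟨IntermediateField.subset_adjoin _ _ (Or.inl rfl),
    IntermediateField.subset_adjoin _ _ (Or.inr ⟨none, rfl⟩),
    IntermediateField.subset_adjoin _ _ (Or.inr ⟨some none, rfl⟩),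
    IntermediateField.subset_adjoin _ _ (Or.inr ⟨some (some none), rfl⟩),
    fun i => IntermediateField.subset_adjoin _ _ (Or.inr ⟨some (some (some i)), rfl⟩)⟩

theorem LL_le {K : IntermediateField ℂ E} (hY : YY m ξ q s p ∈ K) (hZ : ZZ m ξ q s p ∈ K)
    (hq : q ∈ K) (hT : T m s ∈ K) (hp : ∀ i, p i ∈ K) : LL m ξ q s p ≤ K := by
  rw [LL, IntermediateField.adjoin_le_iff]
  rintro _ (rfl | ⟨_ | _ | _ | i, rfl⟩)
  exacts [hY, hZ, hq, hT, hp i]

theorem Ex.ff_mem (h : Ex ξ q s p) : ff m q p s ∈ LL m ξ q s p := by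
  have := char0 E
  obtain ⟨hY, hZ, -, hT, -⟩ := LL_mem m ξ q s p
  have h1 : rr m s ^ 2 = T m s ^ 2 - 2 ^ 2 := by
    have h2 : s ^ m * s⁻¹ ^ m = 1 := by rw [← mul_pow, mul_inv_cancel₀ h.s_ne, one_pow]
    rw [rr, T]
    linear_combination (-4) * h2
  have h3 : ff m q p s = YY m ξ q s p ^ 2 - (T m s ^ 2 - 2 ^ 2) * ZZ m ξ q s p ^ 2 := by
    have := h.xi_ne
    have := h.rr_ne (m := m)
    rw [← h1, YY, ZZ]
    field_simp
    ring
  rw [h3]
  exact sub_mem (pow_mem hY _)
    (mul_mem (sub_mem (pow_mem hT _) (pow_mem (two_mem _) _)) (pow_mem hZ _))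

theorem Ex.indep_of (h : Ex ξ q s p) {ι : Type} [Fintype ι] (hι : Fintype.card ι = n + 3)
    {y : ι → E} (hy : ∀ w : E, IsAlgebraic (IntermediateField.adjoin ℂ (Set.range y)) w) :
    AlgebraicIndependent ℂ y := by
  refine indep_of_rk (le_trans ?_ (rk_le_of_alg (S := Set.range (fam ξ q s p)) fun w _ => hy w))
  rw [rk_range_indep h.indep, hι]
  simp [add_assoc]

theorem Ex.exists_hom (h : Ex ξ q s p) {ξ' s' : E}
    (hy : IntermediateField.adjoin ℂ (Set.range (fam ξ' q s' p)) = ⊤) :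
    ∃ σ : E →ₐ[ℂ] E, σ s = s' ∧ σ ξ = ξ' ∧ σ q = q ∧ ∀ i, σ (p i) = p i := by
  have h1 : AlgebraicIndependent ℂ (fam ξ' q s' p) := h.indep_of (by simp [add_assoc]) fun w =>
    isAlgebraic_algebraMap (⟨w, hy ▸ IntermediateField.mem_top⟩ :
      IntermediateField.adjoin ℂ (Set.range (fam ξ' q s' p)))
  let e : FractionRing (MvPolynomial (I n) ℂ) ≃ₐ[ℂ] E := h.indep.aevalEquivField.trans
    ((IntermediateField.equivOfEq h.gen).trans IntermediateField.topEquiv)
  have he : ∀ i, e.symm (fam ξ q s p i) = algebraMap (MvPolynomial (I n) ℂ) _ (MvPolynomial.X i) :=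
    fun i => by
      rw [AlgEquiv.symm_apply_eq, ← MvPolynomial.aeval_X (R := ℂ) (fam ξ q s p) i]
      exact (h.indep.aevalEquivField_algebraMap_apply_coe _).symm
  let σ : E →ₐ[ℂ] E := ((IntermediateField.val _).comp
    h1.aevalEquivField.toAlgHom).comp e.symm.toAlgHom
  have hσ : ∀ i, σ (fam ξ q s p i) = fam ξ' q s' p i := fun i => by
    change (h1.aevalEquivField (e.symm (fam ξ q s p i)) : E) = _
    rw [he, h1.aevalEquivField_algebraMap_apply_coe, MvPolynomial.aeval_X]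
  exact ⟨σ, hσ (some (some none)), hσ none, hσ (some none), fun i => hσ (some (some (some i)))⟩

/-- The common fixed field of a family of endomorphisms. -/
def Fix {ι : Type} (σ : ι → E →ₐ[ℂ] E) : IntermediateField ℂ E where
  carrier := {w | ∀ i, σ i w = w}
  mul_mem' := fun ha hb i => by rw [map_mul, ha i, hb i]
  add_mem' := fun ha hb i => by rw [map_add, ha i, hb i]
  algebraMap_mem' := fun c i => (σ i).commutes c
  inv_mem' := fun a ha i => by rw [map_inv₀, ha i]

theorem mem_Fix {ι : Type} {σ : ι → E →ₐ[ℂ] E} {w : E} : w ∈ Fix σ ↔ ∀ i, σ i w = w := Iff.rfl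

theorem Ex.exists_sig (h : Ex ξ q s p) (z : U m) : ∃ σ : E →ₐ[ℂ] E, σ s = cz E z * s⁻¹ ∧
    σ ξ = ff m q p s / ξ ∧ σ q = q ∧ (∀ i, σ (p i) = p i) ∧ ∀ w ∈ LL m ξ q s p, σ w = w := by
  obtain ⟨h1, h2, h3, h4⟩ := fam_mem (ff m q p s / ξ) q (cz E z * s⁻¹) p
  have h5 : s = cz E z * (cz E z * s⁻¹)⁻¹ := by
    rw [mul_inv, inv_inv, mul_inv_cancel_left₀ (cz_ne z)]
  have h6 : ff m q p s / (ff m q p s / ξ) = ξ := div_div_cancel₀ h.ff_ne
  have h7 := mul_mem (cz_mem _ z) (inv_mem h3)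
  rw [← h5] at h7
  have h8 := div_mem (ff_mem_of (m := m) h2 h4 h7) h1
  rw [h6] at h8
  obtain ⟨σ, hs, hξ, hq, hp⟩ := h.exists_hom (gen_top h h8 h2 h7 h4)
  have hf : σ (ff m q p s) = ff m q p s := by rw [hom_ff hq hp, hs, ff_mul, ff_inv]
  refine ⟨σ, hs, hξ, hq, hp, fun w hw => LL_le (K := Fix fun _ : Unit => σ) (fun _ => ?_)
    (fun _ => ?_) (fun _ => hq) (fun _ => ?_) (fun i _ => hp i) hw ()⟩
  · simp only [YY, map_div₀, map_add, map_ofNat, hf, hξ, h6, add_comm]
  · simp only [ZZ, map_div₀, map_sub, map_mul, map_ofNat, hf, hξ, h6, hom_rr, hs, rr_mul, rr_inv]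
    rw [mul_neg, div_neg, ← neg_div, neg_sub]
  · rw [hom_T, hs, T_mul, T_inv]

theorem coeff_mem {κ ι : Type} [Fintype κ] (N : Submodule ℂ E) (e : κ → ℕ)
    (he : Function.Injective e) (w : κ → E) {d : ℕ} (hd : ∀ k, e k ≤ d) (A : Finset ι)
    (c : ι → ℂ) (hc : Function.Injective c) (hA : d < A.card)
    (h : ∀ z ∈ A, ∑ k, c z ^ e k • w k ∈ N) (k : κ) : w k ∈ N := by
  classical
  refine (Subspace.forall_mem_dualAnnihilator_apply_eq_zero_iff N _).1 fun φ hφ => ?_
  have h1 : (∑ k, Polynomial.monomial (e k) (φ (w k))) = 0 := by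
    refine Polynomial.eq_zero_of_natDegree_lt_card_of_eval_eq_zero _
      (f := fun z : A => c z) (hc.comp Subtype.val_injective) (fun z => ?_) ?_
    · have h2 := (Submodule.mem_dualAnnihilator φ).1 hφ _ (h z z.2)
      simpa [Polynomial.eval_finsetSum, mul_comm] using h2
    · rw [Fintype.card_coe]
      exact lt_of_le_of_lt (Polynomial.natDegree_sum_le_of_forall_le _ _ fun k _ =>
        (Polynomial.natDegree_monomial_le _).trans (hd k)) hA
  have h2 := congrArg (Polynomial.coeff · (e k)) h1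
  simpa [Polynomial.coeff_monomial, he.eq_iff] using h2

theorem ge_of_pm {V : ValuationSubring E} (hs : s ≠ 0) {a : E} {k : ℕ} {g : ℤ}
    (h1 : Ge V g (a * s ^ k)) (h2 : Ge V g (a * s⁻¹ ^ k)) :
    a = 0 ∨ g + k * |ord V s| ≤ ord V a := by
  refine or_iff_not_imp_left.2 fun ha => ?_
  rw [ge_iff (mul_ne_zero ha (pow_ne_zero _ hs)), ord_mul ha (pow_ne_zero _ hs), ord_pow] at h1
  rw [ge_iff (mul_ne_zero ha (pow_ne_zero _ (inv_ne_zero hs))),
    ord_mul ha (pow_ne_zero _ (inv_ne_zero hs)), ord_pow, ord_inv] at h2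
  rcases abs_choice (ord V s) with h | h <;> rw [h] <;> linarith

/-- (F): at most `2(n+1)` branches are small. No `Ex` here: any field, any `s ≠ 0`. -/
theorem card_branch {V : ValuationSubring E} (hV : Disc V) (hC : ∀ c : ℂ, algebraMap ℂ E c ∈ V)
    (hs : s ≠ 0) (g : ℤ)
    (hg : g ≤ 0 ∧ (g = 0 ∨ ¬Ge V (g + 1) q ∨ ¬Ge V (g + 1) (T m s) ∨ ∃ i, ¬Ge V (g + 1) (p i)))
    (A : Finset (U m)) (hA : ∀ z ∈ A, Ge V (g + 1) (ell m q p (cz E z * s))) :
    A.card ≤ 2 * (n + 1) := by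
  by_contra hlt
  let N : Submodule ℂ E :=
    { carrier := {w | Ge V (g + 1) w}
      add_mem' := Ge.add
      zero_mem' := ge_zero
      smul_mem' := fun c w hw => by
        have h1 := ((mem_iff_ge (Or.inl hV)).1 (hC c)).mul hw
        rwa [zero_add, ← Algebra.smul_def] at h1 }
  let e : Option (Option (Fin n) ⊕ Option (Fin n)) → ℕ := fun o => o.elim (n + 1)
    (Sum.elim (fun o => o.elim (n + 2) fun i => n + 1 + (i + 2))
      fun o => o.elim n fun i => n - 1 - i)
  let w : Option (Option (Fin n) ⊕ Option (Fin n)) → E := fun o => o.elim (2 * q)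
    (Sum.elim (fun o => o.elim (1 * s ^ (m + 1)) fun i => p i * s ^ ((i : ℕ) + 2))
      fun o => o.elim (1 * s⁻¹ ^ (m + 1)) fun i => p i * s⁻¹ ^ ((i : ℕ) + 2))
  have key := coeff_mem N e (by
      rintro (_ | (_ | i) | (_ | i)) (_ | (_ | j) | (_ | j)) h <;>
        simp only [e, Option.elim_none, Option.elim_some, Sum.elim_inl, Sum.elim_inr] at h <;>
        first | rfl | (obtain rfl : i = j := Fin.ext (by omega); rfl) | omega) w
    (d := 2 * (n + 1)) (by
      rintro (_ | (_ | i) | (_ | i)) <;>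
        simp only [e, Option.elim_none, Option.elim_some, Sum.elim_inl, Sum.elim_inr] <;> omega)
    A (fun z => ((z : ℂˣ) : ℂ)) (fun _ _ h => Subtype.ext (Units.ext h)) (not_le.1 hlt)
    fun z hz => by
      have h1 := N.smul_mem (((z : ℂˣ) : ℂ) ^ (n + 1)) (hA z hz)
      have h0 := cz_ne (E := E) z
      have h2 : ∀ i : Fin n, cz E z ^ (n + 1) * (cz E z)⁻¹ ^ ((i : ℕ) + 2) = cz E z ^ (n - 1 - i) :=
        fun i => by
          rw [show n + 1 = n - 1 - i + (i + 2) by omega, pow_add, mul_assoc, ← mul_pow,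
            mul_inv_cancel₀ h0, one_pow, mul_one]
      have h3 : cz E z ^ (n + 1) * (cz E z)⁻¹ ^ (m + 1) = cz E z ^ n := by
        rw [pow_succ (cz E z)⁻¹, inv_pow, cz_pow, inv_one, one_mul, pow_succ, mul_inv_cancel_right₀ h0]
      have h4 : cz E z ^ (n + 1) * cz E z ^ (m + 1) = cz E z ^ (n + 2) := by
        rw [pow_succ _ m, cz_pow, one_mul, ← pow_succ]
      refine (congrArg (· ∈ N) ?_).mp h1
      simp only [Fintype.sum_option, Fintype.sum_sum_type, e, w, Option.elim_none, Option.elim_some,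
        Sum.elim_inl, Sum.elim_inr, Algebra.smul_def, map_pow, ← cz.eq_1, ← h2, ← h3, ← h4, ell, T,
        mul_inv, mul_pow, mul_add, Finset.mul_sum, Finset.sum_add_distrib, pow_add _ (n + 1)]
      simp only [mul_assoc, mul_left_comm, add_assoc, add_left_comm, one_mul]
  have h1 := ge_of_pm hs (key (some (.inl none))) (key (some (.inr none)))
  rw [or_iff_right one_ne_zero, ord_one] at h1
  have h2 := abs_nonneg (ord V s)
  have h3 : (0 : ℤ) ≤ m * |ord V s| := by positivity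
  push_cast at h1
  rcases hg.2 with h | h | h | ⟨i, h⟩
  · nlinarith
  · have h4 := N.smul_mem (2⁻¹ : ℂ) (key none)
    have := char0 E
    refine h ((congrArg (· ∈ N) ?_).mp h4)
    simp [w, Algebra.smul_def, map_ofNat]
  · refine h (Ge.add (Or.inr ?_) (Or.inr ?_))
    · rw [ord_pow]
      nlinarith [neg_abs_le (ord V s)]
    · rw [ord_pow, ord_inv]
      nlinarith [le_abs_self (ord V s)]
  · refine h ((ge_of_pm hs (key (some (.inl (some i)))) (key (some (.inr (some i))))).imp_right ?_)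
    exact le_trans (le_add_of_nonneg_right (by positivity))

end Pool.Agent.Lib.NRC
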