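import Pool.Agent.Lib.NRC.D1

/-! The example: the two rational overfields and their degrees. -/

open scoped IntermediateField
open Module

set_option linter.unusedSectionVars false

noncomputable section

namespace Pool.Agent.Lib.NRC

open Pool.Agent.Lib.MP_7fcda1_ag

variable {E : Type} [Field E] [Algebra ℂ E] {n m : ℕ} [NeZero m] {ξ q s : E} {p : Fin n → E}

open Polynomial in
theorem deg_of {K : IntermediateField ℂ E} {ι : Type} [Fintype ι] (σ : ι → E →ₐ[ℂ] E)
    (hK : K ≤ Fix σ) (hs : ∀ M : IntermediateField ℂ E, K ≤ M → s ∈ M → M = ⊤) {e : ℕ}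
    (he : e < Fintype.card ι) {a b : E} (ha : a ∈ K) (hb : b ∈ K)
    (h : s ^ Fintype.card ι = a * s ^ e + b) (hinj : Function.Injective fun i => σ i s) :
    FiniteDimensional K E ∧ finrank K E = Fintype.card ι ∧ K = Fix σ := by
  let P : K[X] := X ^ Fintype.card ι - (C ⟨a, ha⟩ * X ^ e + C ⟨b, hb⟩)
  have hd : (C (⟨a, ha⟩ : K) * X ^ e + C (⟨b, hb⟩ : K)).degree < (Fintype.card ι : WithBot ℕ) :=
    lt_of_le_of_lt (degree_add_le_of_degree_le (degree_C_mul_X_pow_le _ _)
      (degree_C_le.trans (by exact_mod_cast Nat.zero_le e))) (by exact_mod_cast he)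
  have hP : P.Monic := monic_X_pow_sub hd
  have hPs : aeval s P = 0 := by simp [P, h]
  have hPd : P.degree = Fintype.card ι := by
    rw [degree_sub_eq_left_of_degree_lt (by rwa [degree_X_pow]), degree_X_pow]
  have hint : IsIntegral K s := ⟨P, hP, hPs⟩
  have htop : K⟮s⟯ = ⊤ := by
    apply IntermediateField.restrictScalars_injective ℂ
    exact hs _ (fun w hw => K⟮s⟯.algebraMap_mem ⟨w, hw⟩)
      (IntermediateField.mem_adjoin_simple_self K s)
  have hfin : FiniteDimensional K E := by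
    have := IntermediateField.adjoin.finiteDimensional hint
    rw [htop] at this
    exact IntermediateField.topEquiv.toLinearEquiv.finiteDimensional
  have h1 : finrank K E ≤ Fintype.card ι := by
    rw [← IntermediateField.finrank_top', ← htop, IntermediateField.adjoin.finrank hint]
    exact natDegree_le_of_degree_le ((minpoly.min K s hP hPs).trans hPd.le)
  have hfin' : FiniteDimensional (Fix σ) E := by
    let _ : Algebra K (Fix σ) := (IntermediateField.inclusion hK).toAlgebra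
    have : IsScalarTower K (Fix σ) E := IsScalarTower.of_algebraMap_eq fun _ => rfl
    exact Module.Finite.right K (Fix σ) E
  have h2 : Fintype.card ι ≤ finrank (Fix σ) E := by
    let τ : ι → E →ₐ[Fix σ] E := fun i => { (σ i).toRingHom with commutes' := fun c => c.2 i }
    exact (Fintype.card_le_of_injective τ fun i j hij =>
      hinj (congrArg (fun f : E →ₐ[Fix σ] E => f s) hij)).trans AlgHom.card_le
  have h3 := IntermediateField.eq_of_le_of_finrank_le' hK (h1.trans h2)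
  exact ⟨hfin, le_antisymm h1 (h3 ▸ h2), h3⟩

theorem Ex.emb (h : Ex ξ q s p) {L : IntermediateField ℂ E} {y : I n → E}
    (hL : L ≤ IntermediateField.adjoin ℂ (Set.range y))
    [FiniteDimensional (IntermediateField.adjoin ℂ (Set.range y)) E] :
    ∃ φ : L →ₐ[ℂ] FractionRing (MvPolynomial (Fin (n + 3)) ℂ),
      finrank φ.fieldRange (FractionRing (MvPolynomial (Fin (n + 3)) ℂ)) *
        finrank (IntermediateField.adjoin ℂ (Set.range y)) E = finrank L E := by
  let e : Fin (n + 3) ≃ I n := (Fintype.equivFinOfCardEq (by simp [add_assoc])).symm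
  have h1 : AlgebraicIndependent ℂ (y ∘ e) :=
    (h.indep_of (by simp [add_assoc]) fun w => Algebra.IsAlgebraic.isAlgebraic w).comp _ e.injective
  let ε := (h1.aevalEquivField.trans (IntermediateField.equivOfEq
    (congrArg (IntermediateField.adjoin ℂ) (e.surjective.range_comp y)))).symm
  let φ := ε.toAlgHom.comp (IntermediateField.inclusion hL)
  let _ : Algebra L (IntermediateField.adjoin ℂ (Set.range y)) :=
    (IntermediateField.inclusion hL).toAlgebra
  have : IsScalarTower L (IntermediateField.adjoin ℂ (Set.range y)) E :=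
    IsScalarTower.of_algebraMap_eq fun _ => rfl
  refine ⟨φ, ?_⟩
  rw [← Algebra.finrank_eq_of_equiv_equiv φ.equivFieldRange.toRingEquiv ε.toRingEquiv
    (by ext; rfl), Module.finrank_mul_finrank]

theorem half {G : Type} [CommGroup G] [Fintype G] (hG : ∀ z : G, z⁻¹ = z → z = 1) :
    ∃ R : Finset G, ∀ g : G → E, ∏ z, g z = g 1 * ((∏ z ∈ R, g z) * ∏ z ∈ R, g z⁻¹) := by
  classical
  let _ : LinearOrder G := LinearOrder.lift' (Fintype.equivFin G) (Fintype.equivFin G).injective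
  refine ⟨Finset.univ.filter fun z => z < z⁻¹, fun g => ?_⟩
  have h1 : ∏ z ∈ Finset.univ.filter fun z => z < z⁻¹, g z⁻¹ =
      ∏ z ∈ Finset.univ.filter fun z => z⁻¹ < z, g z :=
    Finset.prod_equiv (Equiv.inv G) (by simp) (by simp)
  rw [h1, Finset.prod_filter, Finset.prod_filter, ← Finset.prod_mul_distrib,
    ← Fintype.prod_ite_eq' 1 g, ← Finset.prod_mul_distrib]
  refine Finset.prod_congr rfl fun z _ => ?_
  rcases lt_trichotomy z z⁻¹ with h | h | h
  · have h2 : z ≠ 1 := by rintro rfl; simp at h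
    simp [h, h.not_gt, h2]
  · obtain rfl := hG z h.symm
    simp
  · have h2 : z ≠ 1 := by rintro rfl; simp at h
    simp [h, h.not_gt, h2]

theorem U_inv (hm : Odd m) (z : U m) (h : z⁻¹ = z) : z = 1 := by
  obtain ⟨k, hk⟩ := hm
  have h1 : z ^ m = 1 := by simpa [card_U] using pow_card_eq_one (x := z)
  have h2 : z ^ 2 = 1 := by rw [sq, ← inv_eq_iff_mul_eq_one, h]
  have h3 : z ^ (2 * k + 1) = 1 := (congrArg (z ^ ·) hk).symm.trans h1
  rwa [pow_succ, pow_mul, h2, one_pow, one_mul] at h3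

theorem Ex.exists_rho (h : Ex ξ q s p) (z : U m) : ∃ σ : E →ₐ[ℂ] E, σ s = cz E z * s ∧
    σ ξ = ξ ∧ σ q = q ∧ (∀ i, σ (p i) = p i) ∧ ∀ w ∈ LL m ξ q s p, σ w = w := by
  obtain ⟨h1, h2, h3, h4⟩ := fam_mem ξ q (cz E z * s) p
  have h7 := mul_mem (inv_mem (cz_mem _ z)) h3
  rw [inv_mul_cancel_left₀ (cz_ne z)] at h7
  obtain ⟨σ, hs, hξ, hq, hp⟩ := h.exists_hom (gen_top h h1 h2 h7 h4)
  have hf : σ (ff m q p s) = ff m q p s := by rw [hom_ff hq hp, hs, ff_mul]
  refine ⟨σ, hs, hξ, hq, hp, fun w hw => LL_le (K := Fix fun _ : Unit => σ) (fun _ => ?_)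
    (fun _ => ?_) (fun _ => hq) (fun _ => ?_) (fun i _ => hp i) hw ()⟩
  · simp only [YY, map_div₀, map_add, map_ofNat, hf, hξ]
  · simp only [ZZ, map_div₀, map_sub, map_mul, map_ofNat, hf, hξ, hom_rr, hs, rr_mul]
  · rw [hom_T, hs, T_mul]

theorem Ex.ne_inv (h : Ex ξ q s p) (z w : U m) : cz E z * s ≠ cz E w * s⁻¹ := by
  simpa using h.pow_ne one_pos (cz_alg z) (cz_alg w) (cz_ne z)

theorem Ex.deg_L (h : Ex ξ q s p) :
    FiniteDimensional (LL m ξ q s p) E ∧ finrank (LL m ξ q s p) E = m + m := by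
  have := char0 E
  choose ρ hρ using h.exists_rho (m := m)
  choose σ hσ using h.exists_sig (m := m)
  obtain ⟨hY, hZ, hq, hT, hp⟩ := LL_mem m ξ q s p
  have hc : Fintype.card (U m ⊕ U m) = m + m := by rw [Fintype.card_sum, card_U]
  have := deg_of (K := LL m ξ q s p) (s := s) (Sum.elim ρ σ)
    (by rintro w hw (z | z); exacts [(hρ z).2.2.2.2 w hw, (hσ z).2.2.2.2 w hw])
    (fun M hM hs => by
      refine gen_top h ?_ (hM hq) hs fun i => hM (hp i)
      have h1 : ξ = YY m ξ q s p + rr m s * ZZ m ξ q s p := by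
        have := h.rr_ne (m := m)
        have := h.xi_ne
        rw [YY, ZZ]
        field_simp
        ring
      rw [h1]
      exact add_mem (hM hY) (mul_mem (sub_mem (pow_mem hs _) (pow_mem (inv_mem hs) _)) (hM hZ)))
    (e := m) (by have := NeZero.pos m; omega) hT (neg_mem (one_mem _))
    (by rw [hc, T, add_mul, ← mul_pow s⁻¹, inv_mul_cancel₀ h.s_ne, one_pow, pow_add]; ring)
    (by
      rintro (z | z) (w | w) h1 <;>
        simp only [Sum.elim_inl, Sum.elim_inr, (hρ _).1, (hσ _).1] at h1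
      · rw [cz_inj (mul_right_cancel₀ h.s_ne h1)]
      · exact absurd h1 (h.ne_inv z w)
      · exact absurd h1.symm (h.ne_inv w z)
      · rw [cz_inj (mul_right_cancel₀ (inv_ne_zero h.s_ne) h1)])
  exact ⟨this.1, this.2.1.trans hc⟩

theorem fam_le {K : IntermediateField ℂ E} (hξ : ξ ∈ K) (hq : q ∈ K) (hs : s ∈ K)
    (hp : ∀ i, p i ∈ K) : IntermediateField.adjoin ℂ (Set.range (fam ξ q s p)) ≤ K := by
  rw [IntermediateField.adjoin_le_iff]
  rintro _ ⟨_ | _ | _ | i, rfl⟩
  exacts [hξ, hq, hs, hp i]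

theorem Ex.deg_two (h : Ex ξ q s p) :
    ∃ φ : LL m ξ q s p →ₐ[ℂ] FractionRing (MvPolynomial (Fin (n + 3)) ℂ),
      finrank φ.fieldRange (FractionRing (MvPolynomial (Fin (n + 3)) ℂ)) = 2 := by
  choose ρ hρ using h.exists_rho (m := m)
  obtain ⟨h1, h2, h3, h4⟩ := fam_mem ξ q (s ^ m) p
  obtain ⟨h5, h6, h7⟩ := deg_of (s := s) ρ
    (fam_le (fun z => (hρ z).2.1) (fun z => (hρ z).2.2.1)
      (fun z => by rw [map_pow, (hρ z).1, mul_pow, cz_pow, one_mul]) fun i z => (hρ z).2.2.2.1 i)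
    (fun M hM hs => gen_top h (hM h1) (hM h2) hs fun i => hM (h4 i))
    (e := 0) (by rw [card_U]; exact NeZero.pos m) (zero_mem _) h3 (by rw [card_U]; simp)
    fun z w h1 => cz_inj (mul_right_cancel₀ h.s_ne ((hρ z).1.symm.trans (h1.trans (hρ w).1)))
  obtain ⟨φ, hφ⟩ := h.emb (L := LL m ξ q s p) (y := fam ξ q (s ^ m) p)
    (h7 ▸ fun w hw z => (hρ z).2.2.2.2 w hw)
  rw [h6, card_U, h.deg_L.2, ← two_mul] at hφ
  exact ⟨φ, mul_right_cancel₀ (NeZero.ne m) hφ⟩

theorem Ex.deg_odd (h : Ex ξ q s p) (hm : Odd m) :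
    ∃ ψ : LL m ξ q s p →ₐ[ℂ] FractionRing (MvPolynomial (Fin (n + 3)) ℂ),
      finrank ψ.fieldRange (FractionRing (MvPolynomial (Fin (n + 3)) ℂ)) = m := by
  have := char0 E
  obtain ⟨σ, hs, hξ, hq, hp, hL⟩ := h.exists_sig (1 : U m)
  rw [cz_one, one_mul] at hs
  obtain ⟨R, hR⟩ := half (E := E) (U_inv hm)
  obtain ⟨κ, hκ⟩ : ∃ κ, κ = ∏ z ∈ R, ell m q p (cz E z * s) := ⟨_, rfl⟩
  have hf : ff m q p s = ell m q p s * (κ * σ κ) := by
    rw [ff, hR, cz_one, one_mul, hκ, map_prod]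
    refine congrArg _ (congrArg _ (Finset.prod_congr rfl fun z _ => ?_))
    rw [hom_ell hq hp, map_mul, hom_cz, hs, ← ell_inv, cz_inv, mul_inv, inv_inv]
  have hκ0 : κ ≠ 0 := hκ ▸ Finset.prod_ne_zero_iff.2 fun z _ => h.ell_ne z
  have hl : ell m q p s ≠ 0 := by simpa [cz_one] using h.ell_ne (1 : U m)
  obtain ⟨x, hx⟩ : ∃ x, x = ξ / κ := ⟨_, rfl⟩
  obtain ⟨x', hx'⟩ : ∃ x', x' = ell m q p s / x := ⟨_, rfl⟩
  have hx0 : x ≠ 0 := hx ▸ div_ne_zero h.xi_ne hκ0
  have e1 : σ x = x' := by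
    have := h.xi_ne
    have := (map_ne_zero σ).2 hκ0
    rw [hx', hx, map_div₀, hξ, hf]
    field_simp
  have e2 : σ x' = x := by
    rw [hx', map_div₀, hom_ell hq hp, hs, ell_inv, e1, hx', div_div_cancel₀ hl]
  have e3 : s - s⁻¹ ≠ 0 := sub_ne_zero.2 (by simpa [cz_one] using h.ne_inv (1 : U m) 1)
  obtain ⟨h1, h2, h3, h4⟩ := fam_mem (x + x') ((x - x') * (s - s⁻¹)) (s + s⁻¹) p
  obtain ⟨h5, h6, h7⟩ := deg_of (s := s) (fun o : Option Unit => o.elim (AlgHom.id ℂ E) fun _ => σ)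
    (fam_le (ξ := x + x') (q := (x - x') * (s - s⁻¹)) (s := s + s⁻¹) (p := p)
      (by rintro (_ | _) <;> simp [e1, e2, add_comm])
      (by rintro (_ | _) <;> simp [e1, e2, hs]; ring)
      (by rintro (_ | _) <;> simp [hs, add_comm])
      (by rintro i (_ | _) <;> simp [hp]))
    (fun M hM hs => by
      have g1 := div_mem (hM h2) (sub_mem hs (inv_mem hs))
      rw [mul_div_cancel_right₀ _ e3] at g1
      have g2 := div_mem (add_mem (hM h1) g1) (two_mem M)
      rw [show (x + x' + (x - x')) / 2 = x by ring] at g2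
      have g3 := mul_mem g2 (sub_mem (hM h1) g2)
      rw [add_sub_cancel_left, hx', mul_div_cancel₀ _ hx0] at g3
      have g4 := div_mem (sub_mem (sub_mem g3 (T_mem hs (m + 1))) (sum_mem fun (i : Fin n)
        (_ : i ∈ Finset.univ) => mul_mem (hM (h4 i)) (T_mem hs (i + 2)))) (two_mem M)
      rw [show (ell m q p s - T (m + 1) s - ∑ i : Fin n, p i * T (i + 2) s) / 2 = q by
        rw [ell]; ring] at g4
      have g5 : κ ∈ M := hκ ▸ prod_mem fun z _ =>
        ell_mem g4 (fun i => hM (h4 i)) (mul_mem (cz_mem M z) hs)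
      have g6 := mul_mem g2 g5
      rw [hx, div_mul_cancel₀ _ hκ0] at g6
      exact gen_top h g6 g4 hs fun i => hM (h4 i))
    (e := 1) (by simp) h3 (neg_mem (one_mem _))
    (by have := h.s_ne; simp; field_simp; ring)
    (by
      rintro (_ | _) (_ | _) h1 <;> first | rfl | simp [hs] at h1
      · exact absurd (sub_eq_zero.2 h1) e3
      · exact absurd (sub_eq_zero.2 h1.symm) e3)
  obtain ⟨ψ, hψ⟩ := h.emb (L := LL m ξ q s p)
    (y := fam (x + x') ((x - x') * (s - s⁻¹)) (s + s⁻¹) p)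
    (h7 ▸ by rintro w hw (_ | _); exacts [rfl, hL w hw])
  rw [h6, h.deg_L.2] at hψ
  refine ⟨ψ, ?_⟩
  simp at hψ
  omega

theorem Ex.degrees (h : Ex ξ q s p) (hm : Odd m) :
    FiniteDimensional (LL m ξ q s p) E ∧ Algebra.trdeg ℂ (LL m ξ q s p) = (n + 3 : ℕ) ∧
    (⊤ : IntermediateField ℂ (LL m ξ q s p)).FG ∧
    ∃ φ ψ : LL m ξ q s p →ₐ[ℂ] FractionRing (MvPolynomial (Fin (n + 3)) ℂ),
      finrank φ.fieldRange (FractionRing (MvPolynomial (Fin (n + 3)) ℂ)) = 2 ∧
      finrank ψ.fieldRange (FractionRing (MvPolynomial (Fin (n + 3)) ℂ)) = m := by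
  have h1 := (h.deg_L (m := m)).1
  obtain ⟨φ, hφ⟩ := h.deg_two (m := m)
  obtain ⟨ψ, hψ⟩ := h.deg_odd hm
  refine ⟨h1, ?_, ?_, φ, ψ, hφ, hψ⟩
  · have h2 := trdeg_add_eq ℂ (LL m ξ q s p) (A := E)
    rw [trdeg_eq_zero (A := E), add_zero, ← h.basis.cardinalMk_eq_trdeg] at h2
    rw [h2]
    simp [add_assoc]
  · rw [IntermediateField.fg_top_iff, IntermediateField.essFiniteType_iff]
    exact IntermediateField.fg_adjoin_of_finite ((Set.finite_range _).insert _)

theorem exists_ex (n : ℕ) : ∃ (E : Type) (_ : Field E) (_ : Algebra ℂ E) (ξ q s : E)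
    (p : Fin n → E), Ex ξ q s p := by
  let x : I n → FractionRing (MvPolynomial (I n) ℂ) := fun i =>
    algebraMap (MvPolynomial (I n) ℂ) _ (MvPolynomial.X i)
  have h : fam (x none) (x (some none)) (x (some (some none))) (fun i => x (some (some (some i)))) =
      x := by
    funext i
    rcases i with _ | _ | _ | i <;> rfl
  refine ⟨_, inferInstance, inferInstance, x none, x (some none), x (some (some none)),
    fun i => x (some (some (some i))), ?_, ?_⟩
  · rw [h]
    exact CPD.indep_frac ℂ (I n)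
  · rw [h]
    exact CPD.gen_frac ℂ (I n)

end Pool.Agent.Lib.NRC
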