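import Pool.Agent.Lib.NRC.A

/-! The dihedral conic bundle. -/

noncomputable section

namespace Pool.Agent.Lib.NRC

variable {E : Type} [Field E] [Algebra ℂ E] {n : ℕ}

def T (k : ℕ) (s : E) : E := s ^ k + s⁻¹ ^ k

def ell (m : ℕ) (q : E) (p : Fin n → E) (s : E) : E :=
  2 * q + T (m + 1) s + ∑ i, p i * T (i + 2) s

abbrev U (m : ℕ) : Type := rootsOfUnity m ℂ

instance (m : ℕ) [NeZero m] : Fintype (U m) := Fintype.ofFinite _

theorem card_U (m : ℕ) [NeZero m] : Fintype.card (U m) = m := by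
  rw [← Nat.card_eq_fintype_card, Complex.card_rootsOfUnity]

def cz (E : Type) [Field E] [Algebra ℂ E] {m : ℕ} (z : U m) : E := algebraMap ℂ E ((z : ℂˣ) : ℂ)

def ff (m : ℕ) [NeZero m] (q : E) (p : Fin n → E) (s : E) : E := ∏ z : U m, ell m q p (cz E z * s)

abbrev I (n : ℕ) : Type := Option (Option (Option (Fin n)))

def fam (ξ q s : E) (p : Fin n → E) : I n → E :=
  fun o => o.elim ξ fun o => o.elim q fun o => o.elim s p

def rr (m : ℕ) (s : E) : E := s ^ m - s⁻¹ ^ m

def YY (m : ℕ) [NeZero m] (ξ q s : E) (p : Fin n → E) : E := (ξ + ff m q p s / ξ) / 2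

def ZZ (m : ℕ) [NeZero m] (ξ q s : E) (p : Fin n → E) : E := (ξ - ff m q p s / ξ) / (2 * rr m s)

/-- The function field of the conic bundle. -/
def LL (m : ℕ) [NeZero m] (ξ q s : E) (p : Fin n → E) : IntermediateField ℂ E :=
  IntermediateField.adjoin ℂ (insert (YY m ξ q s p) (Set.range (fam (ZZ m ξ q s p) q (T m s) p)))

/-- `E` is the rational function field in `ξ, q, s, p`. -/
structure Ex (ξ q s : E) (p : Fin n → E) : Prop where
  indep : AlgebraicIndependent ℂ (fam ξ q s p)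
  gen : IntermediateField.adjoin ℂ (Set.range (fam ξ q s p)) = ⊤

end Pool.Agent.Lib.NRC
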