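import Pool.Agent.Lib.NRC.C2

/-! The global argument and the symmetry of a pencil. -/

open scoped IntermediateField
open Module Polynomial

set_option linter.unusedSectionVars false

noncomputable section

namespace Pool.Agent.Lib.NRC

open Pool.Agent.Lib.MP_7fcda1_ag

variable {W E : Type} [Field W] [Algebra ℂ W] [Field E] [Algebra ℂ E] {V : ValuationSubring W}

theorem map_mem (φ : E →ₐ[ℂ] W) {S : Set E} {T : IntermediateField ℂ W} (hS : ∀ s ∈ S, φ s ∈ T)
    {c : E} (hc : c ∈ IntermediateField.adjoin ℂ S) : φ c ∈ T :=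
  (IntermediateField.adjoin_le_iff.2 hS : _ ≤ T.comap φ) hc

theorem map_Kb (φ : E →ₐ[ℂ] W) {S : Set E} {T : Set W} (hS : ∀ s ∈ S, φ s ∈ Kb T) {c : E}
    (hc : c ∈ Kb S) : φ c ∈ Kb T := by
  obtain ⟨P, hP, h⟩ := mem_Kb.1 hc
  refine root_mem_Kb ((φ : E →+* W).comp (algebraMap (IntermediateField.adjoin ℂ S) E))
    (fun c => map_mem φ hS c.2) hP ?_
  rw [← AlgHom.coe_toRingHom, ← hom_eval₂, ← aeval_def, h, map_zero]

theorem tr_of_der {S : Set E} {w : E} (δ : Der E) (hS : ∀ s ∈ S, δ s = 0) (h : δ w ≠ 0) :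
    Transcendental (IntermediateField.adjoin ℂ S) w := fun h' => h (der_kill hS (mem_Kb.2 h'))

section tower

variable {M L σ : Type} [Field M] [Field L] [Algebra M W] [Algebra L W] [Algebra ℂ M] [Algebra ℂ L]
  [Algebra M L] [IsScalarTower M L W] [IsScalarTower ℂ M W] [IsScalarTower ℂ L W]
  [IsScalarTower ℂ M L] [FiniteDimensional L W] [Fintype σ] [DecidableEq σ] {x : L}
  (hx : M⟮x⟯ = ⊤) (htr : Transcendental M x)
include hx htr

theorem exists_frame {b : Option σ → W} (hb : IsTranscendenceBasis ℂ b) :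
    ∃ d : Option σ → Der W, (∀ c : M, d none (algebraMap M W c) = 0) ∧
      d none (algebraMap L W x) = 1 ∧
      (∀ i (c : M), ∃ c' : M, d (some i) (algebraMap M W c) = algebraMap M W c') ∧
      (∀ i, d (some i) (algebraMap L W x) = 0) ∧
      ∀ b', (∀ w, w ∈ Kb (Set.range b')) → J d b' ≠ 0 := by
  have h1 : IsTranscendenceBasis M fun _ : Unit => x :=
    (algebraicIndependent_unique_type_iff.2 htr).isTranscendenceBasis_iff_isAlgebraic.2 ⟨fun c => by
      rw [Set.range_const, ← IntermediateField.isAlgebraic_adjoin_iff]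
      exact isAlgebraic_algebraMap (⟨c, hx ▸ IntermediateField.mem_top⟩ : M⟮x⟯)⟩
  have key : ∀ (τ : Type) (y : τ → M), IsTranscendenceBasis ℂ y → IsTranscendenceBasis ℂ
      fun o : Option τ => o.elim (algebraMap L W x) (algebraMap M W ∘ y) := fun τ y hy => by
    have h2 := (isTranscendenceBasis_equiv ((Equiv.optionEquivSumPUnit τ).trans
      (Equiv.sumComm _ _))).2 ((hy.sumElim_comp h1).algebraMap_comp (A := W))
    convert h2 using 1
    ext (_ | i)
    · rfl
    · exact IsScalarTower.algebraMap_apply M L W _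
  obtain ⟨s, hs⟩ := exists_isTranscendenceBasis ℂ M
  obtain ⟨e⟩ := Cardinal.eq.1 (hb.cardinalMk_eq (key _ _ hs))
  have hy := (isTranscendenceBasis_equiv e.removeNone).2 hs
  set y := Subtype.val ∘ e.removeNone
  obtain ⟨d, hd⟩ := exists_dual (key _ _ hy)
  have h2 : ∀ c : M, algebraMap M W c ∈ Kb (Set.range (algebraMap M W ∘ y)) := fun c =>
    map_Kb (IsScalarTower.toAlgHom ℂ M W) (S := Set.range y) (by
      rintro _ ⟨i, rfl⟩
      exact subset_Kb ⟨i, rfl⟩) (mem_Kb.2 (hy.isAlgebraic_field.isAlgebraic c))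
  refine ⟨d, fun c => der_kill ?_ (h2 c), by simpa using hd none none, fun i c => ?_,
    fun i => by simpa using hd (some i) none, fun b' => J_ne_zero hd⟩
  · rintro _ ⟨i, rfl⟩
    simpa using hd none (some i)
  · obtain ⟨c', h⟩ := der_mem (d (some i)) (IsScalarTower.toAlgHom ℂ M W).fieldRange
      (IsScalarTower.toAlgHom ℂ M W).fieldRange.toSubfield.toAddSubgroup
      (fun a ha b hb => (IsScalarTower.toAlgHom ℂ M W).fieldRange.mul_mem ha hb) (by
        rintro _ ⟨j, rfl⟩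
        refine ⟨⟨_, rfl⟩, ?_⟩
        have := hd (some i) (some j)
        simp only [Option.elim] at this
        rw [this]
        split_ifs
        exacts [one_mem (IsScalarTower.toAlgHom ℂ M W).fieldRange, zero_mem _]) ⟨c, rfl⟩ (h2 c)
    exact ⟨c', h.symm⟩

theorem isFF_of : IsFF M W := by
  refine ⟨_, (transcendental_algebraMap_iff (algebraMap L W).injective).2 htr, ?_⟩
  have hX : ∀ l : L, algebraMap L W l ∈ M⟮algebraMap L W x⟯ := fun l => by
    have h := IntermediateField.adjoin_map M {x} (IsScalarTower.toAlgHom M L W)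
    rw [hx, Set.image_singleton] at h
    exact h.le ⟨l, trivial, rfl⟩
  let := ((algebraMap L W).codRestrict _ hX).toAlgebra
  have : IsScalarTower L M⟮algebraMap L W x⟯ W := IsScalarTower.of_algebraMap_eq fun _ => rfl
  exact Module.Finite.of_restrictScalars_finite L _ W

theorem global {b b' : Option σ → W} (hb : IsTranscendenceBasis ℂ b)
    (hb' : ∀ w, w ∈ Kb (Set.range b')) {c D : ℕ} (hc : 0 < c) (hD : 2 ≤ D) (c₁ c₂ : ℂ) {ψ : W}
    (hψ : ψ ≠ 0) (H : ∀ (d : Option σ → Der W) V e,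
      Loc V e (IsScalarTower.toAlgHom ℂ L W).fieldRange d → J d b' ≠ 0 →
        -(c * D * |ord V ((algebraMap L W x - algebraMap ℂ W c₁) /
          (algebraMap L W x - algebraMap ℂ W c₂))|) ≤ c * D ^ 2 * ord V (J d b') + ord V ψ) :
    False := by
  have := isFF_of (W := W) hx htr
  obtain ⟨d, h0, h1, h2, h3, h4⟩ := exists_frame hx htr hb
  have hj := h4 b' hb'
  have hXt : Transcendental M (algebraMap L W x) :=
    (transcendental_algebraMap_iff (algebraMap L W).injective).2 htr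
  set X := algebraMap L W x with hX
  have hC : ∀ (v : Place M W) (a : ℂ), Ge v.O 0 (algebraMap ℂ W a) := fun v a => by
    rw [IsScalarTower.algebraMap_apply ℂ M W]
    exact ge_of_le (v.ord_const _).ge
  have hne : ∀ a : ℂ, X - algebraMap ℂ W a ≠ 0 := fun a h => hXt (by
    rw [sub_eq_zero.1 h, IsScalarTower.algebraMap_apply ℂ M W]
    exact isAlgebraic_algebraMap _)
  have hX0 : X ≠ 0 := by simpa using hne 0
  let G := J d b' ^ (c * D ^ 2) * ψ * ((X - algebraMap ℂ W c₁) * (X - algebraMap ℂ W c₂)) ^ (c * D)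
  have hG : ∀ V, ord V G = c * D ^ 2 * ord V (J d b') + ord V ψ +
      c * D * (ord V (X - algebraMap ℂ W c₁) + ord V (X - algebraMap ℂ W c₂)) := fun V => by
    rw [ord_mul (mul_ne_zero (pow_ne_zero _ hj) hψ) (pow_ne_zero _ (mul_ne_zero (hne _) (hne _))),
      ord_mul (pow_ne_zero _ hj) hψ, ord_pow, ord_pow, ord_mul (hne _) (hne _)]
    push_cast
    rfl
  have hcD : (0 : ℤ) < c * D := by positivity
  have hinf : ∀ v : Place M W, ord v.O X < 0 → 0 < ord v.O G := fun v hv => by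
    let u : Option σ → W := fun o => o.elim (-X ^ 2) fun _ => 1
    have hJ : J (fun o => u o • d o) b' = -X ^ 2 * J d b' := by
      have := Matrix.det_mul_column u (Matrix.of fun i k => d i (b' k))
      simpa [u, J] using this
    obtain ⟨e, L'⟩ := exists_loc (x := x⁻¹) (D := fun o => u o • d o) (eq_top_iff.2 (hx ▸
      IntermediateField.adjoin_simple_le_iff.2 (by
        simpa using inv_mem (IntermediateField.mem_adjoin_simple_self M x⁻¹))))
      (fun h => htr (IsAlgebraic.inv_iff.1 h)) (by simp [h0]) (by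
        simp only [map_inv₀, ← hX, Derivation.smul_apply, Derivation.leibniz_inv, h1, u]
        simp [hX0]) (by simpa [u] using h2) (by
        simp only [map_inv₀, ← hX, Derivation.smul_apply, Derivation.leibniz_inv, h3]
        simp) v (by rw [map_inv₀]; exact ge_of_le (by rw [ord_inv, ← hX]; omega))
    have h5 : -X ^ 2 ≠ 0 := neg_ne_zero.2 (pow_ne_zero _ hX0)
    have h6 := H _ _ _ L' (hJ ▸ mul_ne_zero h5 hj)
    have h7 : ∀ a : ℂ, ord v.O (X - algebraMap ℂ W a) = ord v.O X := fun a =>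
      ord_sub_left hX0 ((hC v a).mono (by omega))
    rw [hJ, ord_mul h5 hj, ord_neg, ord_pow, ord_div (hne _) (hne _), h7, h7, sub_self] at h6
    rw [hG, h7, h7]
    have h8 : (2 : ℤ) ≤ D := by exact_mod_cast hD
    have h9 := mul_pos (mul_pos hcD (neg_pos.2 hv)) (show (0 : ℤ) < D - 1 by omega)
    simp only [abs_zero, mul_zero, neg_zero, Nat.cast_ofNat] at h6
    nlinarith
  by_cases h : IsAlgebraic M G
  · obtain ⟨v, hv⟩ := exists_pole hXt
    exact (hinf v hv).ne' (v.ord_algebraic h)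
  · obtain ⟨v, hv⟩ := exists_pole h
    rcases lt_or_ge (ord v.O X) 0 with h5 | h5
    · exact hv.not_gt (hinf v h5)
    obtain ⟨e, L'⟩ := exists_loc hx htr h0 h1 h2 h3 v (ge_of_le h5)
    have h6 := H _ _ _ L' hj
    have h7 := fun a => Ge.le' ((ge_of_le h5).sub (hC v a)) (hne a)
    rw [ord_div (hne _) (hne _)] at h6
    rw [hG] at hv
    have h8 : |ord v.O (X - algebraMap ℂ W c₁) - ord v.O (X - algebraMap ℂ W c₂)| ≤
        ord v.O (X - algebraMap ℂ W c₁) + ord v.O (X - algebraMap ℂ W c₂) := by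
      have := h7 c₁
      have := h7 c₂
      rw [abs_le]
      omega
    have h9 := mul_le_mul_of_nonneg_left h8 hcD.le
    linarith

end tower

theorem exists_psi {D : ℕ} {ξ f : W} {α β : Fin D → W} (c : ℕ) (hf : f ≠ 0)
    (hab : ∀ i j, α i ≠ β j) (ha : ∀ i, ξ - α i ≠ 0) (hb : ∀ i, ξ - β i ≠ 0) :
    ∃ ψ : W, ψ ≠ 0 ∧ ∀ V, ord V ψ = c * Phi V ξ α β - D ^ 2 * ord V f := by
  have h1 : ∀ i j, (α i - β j) / (ξ - α i) / (ξ - β j) ≠ 0 := fun i j =>
    div_ne_zero (div_ne_zero (sub_ne_zero.2 (hab i j)) (ha i)) (hb j)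
  have h2 : ∀ i, ∏ j, (α i - β j) / (ξ - α i) / (ξ - β j) ≠ 0 := fun i =>
    Finset.prod_ne_zero_iff.2 fun j _ => h1 i j
  have h3 := pow_ne_zero c (Finset.prod_ne_zero_iff.2 fun i (_ : i ∈ Finset.univ) => h2 i)
  refine ⟨_ / f ^ D ^ 2, div_ne_zero h3 (pow_ne_zero _ hf), fun V => ?_⟩
  rw [ord_div h3 (pow_ne_zero _ hf), ord_pow, ord_pow, ord_prod _ _ fun i _ => h2 i, Phi]
  push_cast
  congr 2
  refine Finset.sum_congr rfl fun i _ => ?_
  rw [ord_prod _ _ fun j _ => h1 i j]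
  refine Finset.sum_congr rfl fun j _ => ?_
  rw [ord_div (div_ne_zero (sub_ne_zero.2 (hab i j)) (ha i)) (hb j),
    ord_div (sub_ne_zero.2 (hab i j)) (ha i)]

theorem ord_poly (hV : Disc V) {K : IntermediateField ℂ E} {l : E} (hl : l ≠ 0) (ψ : E →+* W)
    (hK : ∀ c ∈ K, ψ c ∈ V) (h : Ge V 1 (ψ l)) {P : K[X]} (hP : P ≠ 0) :
    aeval l P ≠ 0 ∧ ord V (ψ (aeval l P)) = P.rootMultiplicity 0 * ord V (ψ l) := by
  obtain ⟨Q, h1, h2⟩ := exists_eq_pow_rootMultiplicity_mul_and_not_dvd P hP 0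
  rw [C_0, sub_zero] at h1 h2
  rw [X_dvd_iff] at h2
  have h3 : ψ (aeval l Q.divX) ∈ V := aeval_mem' (A := V.comap ψ) (fun c => hK _ c.2)
    ((mem_iff_ge (Or.inl hV)).2 (h.mono (by omega))) _
  have h4 : ord V (ψ (Q.coeff 0)) = 0 := ord_hom (ψ.comp (algebraMap K E)) (fun c => hK _ c.2) _
  have h5 := ord_add_of_ge (V := V) (a := ψ (Q.coeff 0)) (by simpa using h2)
    (Ge.mul' ((mem_iff_ge (Or.inl hV)).1 h3) h (by omega))
  have h6 : ψ (Q.coeff 0) + ψ (aeval l Q.divX) * ψ l = ψ (aeval l Q) := by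
    conv_rhs => rw [← divX_mul_X_add Q]
    simp [add_comm]
  rw [h6, h4] at h5
  have h7 : aeval l P = l ^ P.rootMultiplicity 0 * aeval l Q := by
    conv_lhs => rw [h1]
    simp
  rw [h7, map_mul, map_pow, ord_mul (pow_ne_zero _ (by simpa using hl)) h5.1, ord_pow, h5.2]
  exact ⟨mul_ne_zero (pow_ne_zero _ hl) (by simpa using h5.1), add_zero _⟩

theorem ord_two (hV : Disc V) {K : IntermediateField ℂ E} {l : E} (hl : l ≠ 0) (ψ ψ' : E →+* W)
    (hK : ∀ c ∈ K, ψ c ∈ V) (hK' : ∀ c ∈ K, ψ' c ∈ V) (h : Ge V 1 (ψ l)) (h' : ψ' l = ψ l) {w : E}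
    (hw : w ∈ K⟮l⟯) : ∃ k : ℤ, ord V (ψ w) = k * ord V (ψ l) ∧ ord V (ψ' w) = k * ord V (ψ l) := by
  by_cases h0 : w = 0
  · exact ⟨0, by simp [h0]⟩
  obtain ⟨P, Q, -, h1, h2⟩ := exists_coprime hw
  have hQ : Q ≠ 0 := by rintro rfl; simp at h1
  have hP : P ≠ 0 := by rintro rfl; simp [h0, h1] at h2
  have key : ∀ φ : E →+* W, (∀ c ∈ K, φ c ∈ V) → φ l = ψ l → ord V (φ w) =
      (P.rootMultiplicity 0 - Q.rootMultiplicity 0 : ℤ) * ord V (ψ l) := fun φ h3 h4 => by
    have h5 := (ord_poly hV hl φ h3 (h4 ▸ h) hP).2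
    rw [← h2, map_mul, ord_mul (by simpa using h0) (by simpa using h1),
      (ord_poly hV hl φ h3 (h4 ▸ h) hQ).2, h4] at h5
    linarith
  exact ⟨_, key ψ hK rfl, key ψ' hK' h'⟩

/-- The polynomial `Q` is invariant under the involution `T ↦ f / T` twisted by `τ`. -/
def Sym (K : IntermediateField ℂ E) (τ : E →ₐ[ℂ] E) (f : E) (Q : K[X]) : Prop :=
  ∃ c ∈ K, ∃ w ∈ K, c ≠ 0 ∧ w ≠ 0 ∧ c ^ 2 * w = τ w * f ^ Q.natDegree ∧ ∀ z : ℂ, z ≠ 0 →
    algebraMap ℂ E z ^ Q.natDegree * τ (aeval (f / algebraMap ℂ E z) Q) =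
      c * aeval (algebraMap ℂ E z) Q

theorem sym_of {K : IntermediateField ℂ E} {τ : E →ₐ[ℂ] E} (hτ : ∀ c ∈ K, τ c ∈ K) {f ξ : E}
    (hf : f ∈ K) (hf0 : f ≠ 0) (hf' : τ f = f) (hξ : Transcendental K ξ) (h : τ ξ = f / ξ)
    {P Q : K[X]} (hP : P ≠ 0) (hPQ : IsCoprime P Q) (hd : Q.natDegree = P.natDegree)
    (hx : τ (aeval ξ P) * aeval ξ Q = τ (aeval ξ Q) * aeval ξ P) : Sym K τ f P := by
  let t : K →+* K := ((τ : E →+* E).comp (algebraMap K E)).codRestrict K fun c => hτ _ c.2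
  let R : K[X] → K[X] := fun A => reflect P.natDegree ((A.map t).comp (C ⟨f, hf⟩ * X))
  have h1 : ∀ A : K[X], A.natDegree = P.natDegree →
      ((A.map t).comp (C ⟨f, hf⟩ * X)).natDegree ≤ P.natDegree := fun A hA =>
    natDegree_comp_le.trans (by
      rw [natDegree_map, hA]
      exact mul_le_of_le_one_right' ((natDegree_C_mul_le _ _).trans natDegree_X_le))
  have h2 : ∀ A : K[X], A.natDegree = P.natDegree → ∀ a b : E, a ≠ 0 → τ b = f / a →
      aeval a (R A) = a ^ P.natDegree * τ (aeval b A) := fun A hA a b ha hb => by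
    let := invertibleOfNonzero (inv_ne_zero ha)
    have h3 := eval₂_reflect_mul_pow (algebraMap K E) a⁻¹ _ _ (h1 A hA)
    rw [invOf_eq_inv, inv_inv, ← aeval_def, ← aeval_def, aeval_comp, inv_pow,
      mul_inv_eq_iff_eq_mul₀ (pow_ne_zero _ ha)] at h3
    have h4 : τ (aeval b A) = aeval (τ b) (A.map t) :=
      map_aeval_eq_aeval_map (φ := t) (ψ := (τ : E →+* E)) rfl A b
    rw [h3, mul_comm, h4, hb]
    simp [div_eq_mul_inv]
  have hξ0 : ξ ≠ 0 := fun h => hξ (h ▸ isAlgebraic_zero)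
  have hinj := transcendental_iff_injective.1 hξ
  have h3 : R P * Q = R Q * P := hinj (by
    rw [map_mul, map_mul, h2 P rfl ξ ξ hξ0 h, h2 Q hd ξ ξ hξ0 h, mul_assoc, hx, mul_assoc])
  obtain ⟨c, hc⟩ := hPQ.dvd_of_dvd_mul_right (h3 ▸ dvd_mul_left P (R Q))
  have h4 : R P ≠ 0 := fun h0 => by
    have := h2 P rfl ξ ξ hξ0 h
    rw [h0, map_zero, eq_comm, mul_eq_zero, map_eq_zero] at this
    exact this.elim (pow_ne_zero _ hξ0) fun h => hP (hinj (by simpa using h))
  have h5 : c ≠ 0 := right_ne_zero_of_mul (hc ▸ h4)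
  have h6 : c.natDegree = 0 := by
    have h6 : (R P).natDegree ≤ _ := natDegree_reflect_le.trans (max_le le_rfl (h1 P rfl))
    rw [hc, natDegree_mul hP h5] at h6
    omega
  rw [eq_C_of_natDegree_eq_zero h6] at hc h5
  have h7 := congrArg (coeff · 0) hc
  have h8 := congrArg (coeff · P.natDegree) hc
  simp only [R, coeff_reflect, revAt_zero, revAt_le le_rfl, Nat.sub_self, comp_C_mul_X_coeff,
    coeff_map, coeff_mul_C, pow_zero, mul_one, coeff_natDegree] at h7 h8
  have h9 : P.leadingCoeff ≠ 0 := leadingCoeff_ne_zero.2 hP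
  have h10 : P.coeff 0 ≠ 0 := left_ne_zero_of_mul (h7 ▸ mul_ne_zero (by simpa using h9)
    (pow_ne_zero _ fun h => hf0 (congrArg Subtype.val h)))
  refine ⟨c.coeff 0, Subtype.property _, (P.coeff 0 * P.leadingCoeff : K), Subtype.property _,
    by simpa using h5, by simpa using ⟨h10, hP⟩, ?_, fun z hz => ?_⟩
  · have h11 : τ (P.leadingCoeff : K) * f ^ P.natDegree = P.coeff 0 * c.coeff 0 := by
      exact congrArg (algebraMap K E) h7 |>.trans (map_mul _ _ _) |>.symm.trans (by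
        rw [map_mul, map_pow]; rfl) |>.symm
    have h12 : τ (P.coeff 0 : K) = P.leadingCoeff * c.coeff 0 := by
      exact congrArg Subtype.val h8
    push_cast
    rw [map_mul, mul_assoc, h11, h12]
    ring
  · rw [← h2 P rfl _ _ (by simpa using hz) (by simp [hf']), hc, map_mul, aeval_C, mul_comm]
    rfl

end Pool.Agent.Lib.NRC
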