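import Pool.Agent.Lib.NRC.E1
import Pool.Agent.Lib.NRC.D1

/-! Pencils on the generic conic. -/

open scoped IntermediateField
open Module Polynomial

set_option linter.unusedSectionVars false

noncomputable section

namespace Pool.Agent.Lib.NRC

open Pool.Agent.Lib.MP_7fcda1_ag

variable {W E : Type} [Field W] [Algebra ℂ W] [Field E] [Algebra ℂ E] {V : ValuationSubring W}
  {K : IntermediateField ℂ E}

theorem Sym.ord_eq {τ : E →ₐ[ℂ] E} {f : E} {Q : K[X]} (h : Sym K τ f Q) (hf : f ∈ K) (hf0 : f ≠ 0)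
    (φ : E →ₐ[ℂ] W) (hC : ∀ c : ℂ, algebraMap ℂ W c ∈ V) {l : ℤ}
    (hτ : ∀ w ∈ K, ∃ k : ℤ, ord V (φ w) = k * l ∧ ord V (φ (τ w)) = k * l) :
    (∃ k : ℤ, 2 * (k * l) = Q.natDegree * ord V (φ f)) ∧ ∀ z : ℂ, z ≠ 0 →
      aeval (algebraMap ℂ E z) Q ≠ 0 → 2 * (ord V (φ (aeval (f / algebraMap ℂ E z) Q)) -
        ord V (φ (aeval (algebraMap ℂ E z) Q))) = Q.natDegree * ord V (φ f) := by
  obtain ⟨c, hc, w, hw, hc0, hw0, h1, h2⟩ := h
  have h3 : ∀ a ∈ K, ord V (φ (τ a)) = ord V (φ a) := fun a ha => by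
    obtain ⟨k, h, h'⟩ := hτ a ha
    rw [h, h']
  have h4 := congrArg (fun a => ord V (φ a)) h1
  simp only [map_mul, map_pow] at h4
  rw [ord_mul (by simpa using hc0) (by simpa using hw0), ord_mul (by simpa using hw0)
    (pow_ne_zero _ (by simpa using hf0)), ord_pow, ord_pow, h3 w hw] at h4
  push_cast at h4
  refine ⟨(hτ c hc).imp fun k hk => by rw [← hk.1]; linarith, fun z hz hQ => ?_⟩
  have h5 := h2 z hz
  have h6 := right_ne_zero_of_mul (h5 ▸ mul_ne_zero hc0 hQ)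
  have h7 := congrArg (fun a => ord V (φ a)) h5
  simp only [map_mul, map_pow, AlgHom.commutes] at h7
  rw [ord_mul (pow_ne_zero _ (by simpa using hz)) (by simpa using h6), ord_mul (by simpa using hc0)
    (by simpa using hQ), ord_pow, ord_hom _ hC, h3 _ (aeval_mem' (fun c => c.2)
      (div_mem hf (K.algebraMap_mem z)) Q)] at h7
  linarith

theorem exists_pencil {ξ x : E} (hx : x ∈ K⟮ξ⟯) (hx' : x ∉ K) : ∃ (c₁ c₂ : ℂ) (P Q : K[X]) (b : E),
    IsCoprime P Q ∧ Q.natDegree = P.natDegree ∧ P.natDegree ≠ 0 ∧ b ≠ 0 ∧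
      (x - algebraMap ℂ E c₁) * b = aeval ξ P ∧ (x - algebraMap ℂ E c₂) * b = aeval ξ Q := by
  obtain ⟨P, Q, ⟨u, v, h1⟩, h2, h3⟩ := exists_coprime hx
  have hQ : Q ≠ 0 := by rintro rfl; simp at h2
  set D := max P.natDegree Q.natDegree with hD
  have h4 : D ≠ 0 := fun h => hx' (by
    rw [eq_C_of_natDegree_eq_zero (p := P) (by omega), eq_C_of_natDegree_eq_zero (p := Q) (by omega),
      aeval_C, aeval_C] at h3
    rw [eq_C_of_natDegree_eq_zero (p := Q) (by omega), aeval_C] at h2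
    rw [eq_div_of_mul_eq h2 h3]
    exact div_mem (Subtype.property _) (Subtype.property _))
  have h5 : {c : ℂ | P.coeff D - algebraMap ℂ K c * Q.coeff D = 0}.Subsingleton := by
    intro c h c' h'
    rw [Set.mem_ofPred_eq] at h h'
    by_contra h6
    have h7 : Q.coeff D = 0 := by
      have h7 : (algebraMap ℂ K c' - algebraMap ℂ K c) * Q.coeff D = 0 := by
        linear_combination h - h'
      exact (mul_eq_zero.1 h7).resolve_left (by simpa [sub_eq_zero] using Ne.symm h6)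
    have h8 : P.coeff D = 0 := by simpa [h7] using h
    rcases max_choice P.natDegree Q.natDegree with h9 | h9
    · rw [hD, h9, coeff_natDegree, leadingCoeff_eq_zero] at h8
      rw [hD, h9, h8, natDegree_zero] at h4
      exact h4 rfl
    · rw [hD, h9, coeff_natDegree, leadingCoeff_eq_zero] at h7
      exact hQ h7
  have h6 : ∀ c : ℂ, P.coeff D - algebraMap ℂ K c * Q.coeff D ≠ 0 →
      (P - C (algebraMap ℂ K c) * Q).natDegree = D := fun c hc =>
    natDegree_eq_of_le_of_coeff_ne_zero ((natDegree_sub_le _ _).trans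
      (max_le_max le_rfl (natDegree_C_mul_le _ _))) (by simpa using hc)
  have h7 : ∀ c : ℂ, (x - algebraMap ℂ E c) * aeval ξ Q =
      aeval ξ (P - C (algebraMap ℂ K c) * Q) := fun c => by
    rw [sub_mul, h3, map_sub, map_mul, aeval_C, ← IsScalarTower.algebraMap_apply]
  obtain ⟨c₁, h8⟩ := h5.finite.exists_notMem
  obtain ⟨c₂, h9⟩ := (h5.finite.insert c₁).exists_notMem
  simp only [Set.mem_insert_iff, not_or] at h9
  refine ⟨c₁, c₂, _, _, _, ?_, (h6 _ h9.2).trans (h6 _ h8).symm, (h6 _ h8).symm ▸ h4, h2, h7 _, h7 _⟩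
  have h10 : C (algebraMap ℂ K (c₂ - c₁)⁻¹) * (C (algebraMap ℂ K c₂) - C (algebraMap ℂ K c₁)) =
      1 := by
    rw [← map_sub, ← map_sub, ← map_mul, ← map_mul, inv_mul_cancel₀ (sub_ne_zero.2 h9.1), map_one,
      map_one]
  exact ⟨u + (u * C (algebraMap ℂ K c₁) + v) * C (algebraMap ℂ K (c₂ - c₁)⁻¹),
    -(u * C (algebraMap ℂ K c₁) + v) * C (algebraMap ℂ K (c₂ - c₁)⁻¹), by
    linear_combination h1 + (u * C (algebraMap ℂ K c₁) + v) * Q * h10⟩

theorem exists_roots {F : Type} [Field F] [Algebra F W] {Q : F[X]} {D : ℕ} (hD : Q.natDegree = D)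
    (h : (Q.map (algebraMap F W)).Splits) :
    ∃ γ : Fin D → W, ∀ a, aeval a Q = algebraMap F W Q.leadingCoeff * ∏ i, (a - γ i) := by
  have h1 := h.natDegree_eq_card_roots
  rw [natDegree_map, hD] at h1
  obtain ⟨l, hl⟩ := Quot.exists_rep (Q.map (algebraMap F W)).roots
  have h2 : l.length = D := by rw [h1, ← hl]; rfl
  subst h2
  refine ⟨l.get, fun a => ?_⟩
  rw [h.aeval_eq_prod_aroots, aroots, ← hl, ← List.prod_ofFn]
  congr 1
  conv_lhs => rw [← List.ofFn_get l]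
  simp

theorem exists_split' (R : E[X]) : ∃ (W : Type) (_ : Field W) (_ : Algebra E W) (_ : Algebra ℂ W)
    (_ : IsScalarTower ℂ E W) (_ : FiniteDimensional E W), (R.map (algebraMap E W)).Splits :=
  ⟨R.SplittingField, inferInstance, inferInstance, inferInstance, inferInstance, inferInstance,
    SplittingField.splits R⟩

theorem exists_split {P Q : K[X]} (hP : P ≠ 0) (hQ : Q ≠ 0) : ∃ (W : Type) (_ : Field W)
    (_ : Algebra E W) (_ : Algebra ℂ W) (_ : IsScalarTower ℂ E W) (_ : FiniteDimensional E W),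
    (P.map (algebraMap K W)).Splits ∧ (Q.map (algebraMap K W)).Splits := by
  obtain ⟨W, _, _, _, _, _, h⟩ := exists_split' ((P * Q).map (algebraMap K E))
  rw [Polynomial.map_map, ← IsScalarTower.algebraMap_eq] at h
  have h0 : (P * Q).map (algebraMap K W) ≠ 0 := Polynomial.map_ne_zero (mul_ne_zero hP hQ)
  exact ⟨W, inferInstance, inferInstance, inferInstance, inferInstance, inferInstance,
    h.of_dvd h0 (Polynomial.map_dvd _ (dvd_mul_right _ _)),
    h.of_dvd h0 (Polynomial.map_dvd _ (dvd_mul_left _ _))⟩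

variable {n m : ℕ} {ξ q s : E} {p : Fin n → E}

theorem map_T (φ : E →ₐ[ℂ] W) (k : ℕ) (s : E) : φ (T k s) = T k (φ s) := by simp [T]

theorem map_cz (φ : E →ₐ[ℂ] W) (z : U m) : φ (cz E z) = cz W z := φ.commutes _

theorem map_ell (φ : E →ₐ[ℂ] W) (s : E) : φ (ell m q p s) = ell m (φ q) (φ ∘ p) (φ s) := by
  simp [ell, map_T, map_ofNat]

theorem ell_sub_mem (h : s ∈ K) (hp : ∀ i, p i ∈ K) (z : U m) :
    ell m q p (cz E z * s) - 2 * q ∈ K := by
  have h1 : cz E z * s ∈ K := mul_mem (K.algebraMap_mem _) h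
  rw [ell, add_assoc, add_sub_cancel_left]
  exact add_mem (T_mem h1 _) (sum_mem fun i _ => mul_mem (hp i) (T_mem h1 _))

theorem ell_mem' (hq : q ∈ K) (h : s ∈ K) (hp : ∀ i, p i ∈ K) (z : U m) :
    ell m q p (cz E z * s) ∈ K := by
  simpa using add_mem (ell_sub_mem (q := q) h hp z) (mul_mem (two_mem _) hq)

theorem s_mem_Kb {S : Set E} (hm : m ≠ 0) (hs : s ≠ 0) (h : T m s ∈ Kb S) : s ∈ Kb S := by
  refine root_mem_Kb (algebraMap (Kb S) E) (fun c => c.2)
    (P := X ^ (2 * m) - C ⟨_, h⟩ * X ^ m + 1) (fun h0 => ?_) ?_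
  · simpa [hm] using congrArg (eval 0) h0
  · simp only [eval₂_add, eval₂_sub, eval₂_mul, eval₂_X_pow, eval₂_C, eval₂_one]
    change s ^ (2 * m) - T m s * s ^ m + 1 = 0
    rw [T, add_mul, ← mul_pow s⁻¹, inv_mul_cancel₀ hs]
    ring

/-- The field generated by `s` and the `p i`. -/
def kF (s : E) (p : Fin n → E) : IntermediateField ℂ E :=
  IntermediateField.adjoin ℂ (insert s (Set.range p))

/-- The double-dihedral cover of the base. -/
def KF (q s : E) (p : Fin n → E) : IntermediateField ℂ E :=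
  IntermediateField.adjoin ℂ (insert q (insert s (Set.range p)))

theorem s_kF : s ∈ kF s p := IntermediateField.subset_adjoin _ _ (Or.inl rfl)

theorem p_kF (i : Fin n) : p i ∈ kF s p := IntermediateField.subset_adjoin _ _ (Or.inr ⟨i, rfl⟩)

theorem q_KF : q ∈ KF q s p := IntermediateField.subset_adjoin _ _ (Or.inl rfl)

theorem kF_le : kF s p ≤ KF q s p := IntermediateField.adjoin.mono _ _ _ (Set.subset_insert _ _)

theorem map_kF (φ : E →ₐ[ℂ] W) {A : IntermediateField ℂ W} (hs : φ s ∈ A) (hp : ∀ i, φ (p i) ∈ A)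
    {c : E} (hc : c ∈ kF s p) : φ c ∈ A :=
  map_mem φ (by rintro _ (rfl | ⟨i, rfl⟩); exacts [hs, hp i]) hc

theorem map_KF (φ : E →ₐ[ℂ] W) {A : IntermediateField ℂ W} (hq : φ q ∈ A)
    (h : ∀ c ∈ kF s p, φ c ∈ A) {c : E} (hc : c ∈ KF q s p) : φ c ∈ A :=
  map_mem φ (by rintro _ (rfl | rfl | ⟨i, rfl⟩); exacts [hq, h _ s_kF, h _ (p_kF i)]) hc

theorem ff_KF [NeZero m] : ff m q p s ∈ KF q s p :=
  prod_mem fun z _ => ell_mem' q_KF (kF_le s_kF) (fun i => kF_le (p_kF i)) z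

/-- The reflection fixing a branch preserves the valuations centred on that branch. -/
theorem ord_sig [NeZero m] (hV : Disc V) (φ : E →ₐ[ℂ] W) (hk : ∀ c ∈ kF s p, φ c ∈ V) {z : U m}
    (h0 : ell m q p (cz E z * s) ≠ 0) (h : Ge V 1 (φ (ell m q p (cz E z * s)))) {σ : E →ₐ[ℂ] E}
    (h1 : σ s = cz E (z ^ 2)⁻¹ * s⁻¹) (h2 : σ q = q) (h3 : ∀ i, σ (p i) = p i) {w : E}
    (hw : w ∈ KF q s p) : ∃ k : ℤ, ord V (φ w) = k * ord V (φ (ell m q p (cz E z * s))) ∧
      ord V (φ (σ w)) = k * ord V (φ (ell m q p (cz E z * s))) := by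
  have h4 : σ (ell m q p (cz E z * s)) = ell m q p (cz E z * s) := by
    rw [map_ell, h2, show σ ∘ p = p from funext h3, map_mul, map_cz, h1, ← ell_inv]
    congr 1
    have : cz E z ≠ 0 := by simp [cz]
    have h5 : cz E (z ^ 2)⁻¹ = (cz E z ^ 2)⁻¹ := by simp [cz]
    rw [h5]
    field_simp
  refine ord_two hV h0 (φ : E →+* W) (φ.comp σ : E →+* W) hk (fun c hc => hk _ (map_kF σ
    (h1 ▸ mul_mem ((kF s p).algebraMap_mem _) (inv_mem s_kF)) (fun i => (h3 i).symm ▸ p_kF i) hc)) h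
    (congrArg φ h4) ?_
  have h5 : ∀ c ∈ kF s p, c ∈ (kF s p)⟮ell m q p (cz E z * s)⟯ := fun c hc =>
    IntermediateField.algebraMap_mem _ (⟨c, hc⟩ : kF s p)
  refine map_KF (AlgHom.id ℂ E) (A := (kF s p)⟮ell m q p (cz E z * s)⟯.restrictScalars ℂ) ?_ h5 hw
  have h6 := div_mem (sub_mem (IntermediateField.mem_adjoin_simple_self _ _)
    (h5 _ (ell_sub_mem (q := q) s_kF p_kF z))) (h5 _ (two_mem _))
  have : CharZero E := charZero_of_injective_algebraMap (algebraMap ℂ E).injective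
  simpa using h6

end Pool.Agent.Lib.NRC
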