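import Pool.Agent.Lib.NRC.E2
import Pool.Agent.Lib.NRC.D2

/-! The conic bundle is not ruled. -/

open scoped IntermediateField
open Module Polynomial

set_option linter.unusedSectionVars false

noncomputable section

namespace Pool.Agent.Lib.NRC

open Pool.Agent.Lib.MP_7fcda1_ag

variable {E : Type} [Field E] [Algebra ℂ E] {n m : ℕ} [NeZero m] {ξ q s : E} {p : Fin n → E}

theorem Ex.tr_xi (h : Ex ξ q s p) : Transcendental (KF q s p) ξ := by
  obtain ⟨d, hd⟩ := exists_dual h.basis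
  refine tr_of_der (d none) ?_ ((hd none none).trans_ne (by simp))
  rintro _ (rfl | rfl | ⟨i, rfl⟩)
  exacts [hd none (some none), hd none (some (some none)), hd none (some (some (some i)))]

theorem Ex.mem (h : Ex ξ q s p) {W : Type} [Field W] [Algebra ℂ W] (φ : E →ₐ[ℂ] W)
    {A : IntermediateField ℂ W} (h1 : φ ξ ∈ A) (h2 : φ q ∈ A) (h3 : ∀ c ∈ kF s p, φ c ∈ A) (w : E) :
    φ w ∈ A :=
  map_mem φ (by
    rintro _ ⟨_ | _ | _ | i, rfl⟩
    exacts [h1, h2, h3 _ s_kF, h3 _ (p_kF i)]) (h.gen ▸ IntermediateField.mem_top)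

theorem Ex.top (h : Ex ξ q s p) {K : IntermediateField ℂ E} {a : E} (h1 : ξ ∈ K ∨ ξ = a)
    (h2 : q ∈ K ∨ q = a) (h3 : kF s p ≤ K) : K⟮a⟯ = ⊤ := by
  have h4 : ∀ c, c ∈ K ∨ c = a → AlgHom.id ℂ E c ∈ K⟮a⟯.restrictScalars ℂ := by
    intro c hc
    rw [AlgHom.id_apply, IntermediateField.mem_restrictScalars]
    rcases hc with hc | rfl
    exacts [IntermediateField.algebraMap_mem _ (⟨c, hc⟩ : K),
      IntermediateField.mem_adjoin_simple_self _ _]
  exact eq_top_iff.2 fun w _ => h.mem _ (h4 _ h1) (h4 _ h2) (fun c hc => h4 _ (Or.inl (h3 hc))) w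

theorem Ex.gen_xi (h : Ex ξ q s p) (w : E) : w ∈ (KF q s p)⟮ξ⟯ :=
  h.top (Or.inr rfl) (Or.inl q_KF) kF_le ▸ IntermediateField.mem_top

theorem Ex.even (h : Ex ξ q s p) {σ : E →ₐ[ℂ] E} (h1 : σ s = cz E ((1 : U m) ^ 2)⁻¹ * s⁻¹)
    (h2 : σ q = q) (h3 : ∀ i, σ (p i) = p i) {P : (KF q s p)[X]}
    (hP : Sym (KF q s p) σ (ff m q p s) P) : P.natDegree ≠ 1 := by
  obtain ⟨d, hd⟩ := exists_dual h.basis
  have : CharZero E := charZero_of_injective_algebraMap (algebraMap ℂ E).injective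
  let S := insert ξ (insert s (Set.range p))
  have h4 : ∀ w ∈ S, d (some none) w = 0 := by
    rintro _ (rfl | rfl | ⟨i, rfl⟩)
    exacts [hd _ none, hd _ (some (some none)), hd _ (some (some (some i)))]
  have h5 : d (some none) q = 1 := hd (some none) (some none)
  have h6 : kF s p ≤ IntermediateField.adjoin ℂ S :=
    IntermediateField.adjoin.mono _ _ _ (Set.subset_insert _ _)
  have := isFF_of (W := E) (h.top (Or.inl (IntermediateField.subset_adjoin _ _ (Or.inl rfl)))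
    (Or.inr rfl) h6) (tr_of_der _ h4 (h5.trans_ne one_ne_zero))
  have h8 := der_kill h4 (adjoin_le_Kb (h6 (ell_sub_mem (m := m) (q := q) s_kF p_kF 1)))
  rw [map_sub, sub_eq_zero, two_mul, map_add, h5] at h8
  obtain ⟨v, hv⟩ := exists_pole (tr_of_der (w := (ell m q p (cz E (1 : U m) * s))⁻¹) _ h4 (by
    rw [Derivation.leibniz_inv, h8]
    simpa using h.ell_ne 1))
  rw [ord_inv, neg_lt_zero] at hv
  have h9 : ∀ c ∈ kF s p, c ∈ v.O := fun c hc => v.const ⟨c, h6 hc⟩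
  have h10 : ord v.O (ff m q p s) = ord v.O (ell m q p (cz E (1 : U m) * s)) := by
    rw [ff, ord_prod _ _ fun z _ => h.ell_ne z]
    refine Finset.sum_eq_single 1 (fun z _ hz => ?_) (by simp)
    have h10 := v.ord_const ⟨_, h6 (sub_mem (ell_sub_mem (q := q) s_kF p_kF z)
      (ell_sub_mem (m := m) (q := q) s_kF p_kF 1))⟩
    change ord v.O (_ - _ - (_ - _)) = 0 at h10
    rw [sub_sub_sub_cancel_right] at h10
    have h11 := (ord_add_of_ge (V := v.O) (sub_ne_zero.2 fun h' => hz (h.ell_inj h'))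
      (ge_of_le (h10.symm ▸ hv))).2
    rwa [sub_add_cancel, h10] at h11
  obtain ⟨k, hk⟩ := (hP.ord_eq ff_KF h.ff_ne (AlgHom.id ℂ E) (fun c => h9 _ (algebraMap_mem _ c))
    fun w hw => ord_sig v.disc (AlgHom.id ℂ E) h9 (h.ell_ne 1) (ge_of_le hv) h1 h2 h3 hw).1
  intro h11
  simp only [h11, AlgHom.id_apply, h10, ← mul_assoc] at hk
  have := mul_right_cancel₀ hv.ne' hk
  omega

theorem Ex.xi_eq (h : Ex ξ q s p) : ξ = YY m ξ q s p + rr m s * ZZ m ξ q s p ∧
    ff m q p s = ξ * (YY m ξ q s p - rr m s * ZZ m ξ q s p) := by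
  have : CharZero E := charZero_of_injective_algebraMap (algebraMap ℂ E).injective
  have h1 := h.rr_ne (m := m)
  have h2 := h.xi_ne
  unfold YY ZZ
  constructor <;> field_simp <;> ring

theorem rr_kF : rr m s ∈ kF s p := sub_mem (pow_mem s_kF _) (pow_mem (inv_mem s_kF) _)

theorem Ex.mem_KF (h : Ex ξ q s p) (hm : 4 * (n + 1) * (n + 3) ≤ m)
    [FiniteDimensional (LL m ξ q s p) E] {M : IntermediateField ℂ (LL m ξ q s p)}
    {x : LL m ξ q s p} (htr : Transcendental M x) (hx : M⟮x⟯ = ⊤) : (x : E) ∈ KF q s p := by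
  by_contra hxK
  obtain ⟨c₁, c₂, P, Q, b, hPQ, hd, hD, hb, h1, h2⟩ := exists_pencil (h.gen_xi x) hxK
  have hP : P ≠ 0 := by rintro rfl; simp at hD
  have hQ : Q ≠ 0 := by rintro rfl; exact hD (by simpa using hd.symm)
  have hP' : aeval ξ P ≠ 0 := fun h0 => hP (transcendental_iff.1 h.tr_xi P h0)
  have hQ' : aeval ξ Q ≠ 0 := fun h0 => hQ (transcendental_iff.1 h.tr_xi Q h0)
  have hsym : ∀ z : U m, ∃ σ : E →ₐ[ℂ] E, σ s = cz E z * s⁻¹ ∧ σ q = q ∧ (∀ i, σ (p i) = p i) ∧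
      Sym (KF q s p) σ (ff m q p s) P ∧ Sym (KF q s p) σ (ff m q p s) Q := fun z => by
    obtain ⟨σ, h3, h4, h5, h6, h7⟩ := h.exists_sig z
    have h8 : ∀ c ∈ KF q s p, σ c ∈ KF q s p := fun c => map_KF σ (h5.symm ▸ q_KF) fun c =>
      map_kF σ (h3 ▸ mul_mem ((KF q s p).algebraMap_mem _) (inv_mem (kF_le s_kF)))
        fun i => (h6 i).symm ▸ kF_le (p_kF i)
    have h9 : σ (aeval ξ P) * aeval ξ Q = σ (aeval ξ Q) * aeval ξ P := by
      rw [← h1, ← h2]
      simp only [map_mul, map_sub, h7 _ x.2, AlgHom.commutes]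
      ring
    exact ⟨σ, h3, h5, h6, sym_of h8 ff_KF h.ff_ne (h7 _ h.ff_mem) h.tr_xi h4 hP hPQ hd h9,
      sym_of h8 ff_KF h.ff_ne (h7 _ h.ff_mem) h.tr_xi h4 hQ hPQ.symm hd.symm h9.symm⟩
  have hD2 : 2 ≤ P.natDegree := by
    obtain ⟨σ, h3, h4, h5, h6, -⟩ := hsym (1 ^ 2)⁻¹
    have := h.even h3 h4 h5 h6
    omega
  obtain ⟨W, _, _, _, _, _, sP, sQ⟩ := exists_split hP hQ
  obtain ⟨α, hα⟩ := exists_roots rfl sP
  obtain ⟨β, hβ⟩ := exists_roots hd sQ
  let φ := IsScalarTower.toAlgHom ℂ E W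
  have hφ : ∀ (a : E) (A : (KF q s p)[X]), φ (aeval a A) = aeval (φ a) A := fun a A =>
    (aeval_algebraMap_apply W a A).symm
  let y : Option (Fin n) → W := fun o => o.elim (φ (T m s)) (φ ∘ p)
  have hk : ∀ c ∈ kF s p, φ c ∈ Kb (Set.range y) := fun c hc => by
    refine map_kF φ (s_mem_Kb (NeZero.ne m) (by simpa using h.s_ne) (subset_Kb ?_))
      (fun i => subset_Kb ?_) hc
    exacts [⟨none, map_T φ m s⟩, ⟨some i, rfl⟩]
  have hK : ∀ c ∈ KF q s p, φ c ∈ Kb (insert (φ q) (Set.range y)) := fun c =>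
    map_KF φ (subset_Kb (Or.inl rfl)) fun c hc => Kb_mono (Set.subset_insert _ _) (hk c hc)
  have hL : ∀ c ∈ LL m ξ q s p, φ c ∈ (IsScalarTower.toAlgHom ℂ (LL m ξ q s p) W).fieldRange :=
    fun c hc => ⟨⟨c, hc⟩, rfl⟩
  have hL' : ∀ o, φ (fam (ZZ m ξ q s p) q (T m s) p o) ∈ _ := fun o =>
    hL _ (IntermediateField.subset_adjoin _ _ (Or.inr ⟨o, rfl⟩))
  have root : ∀ {A : (KF q s p)[X]} {γ : Fin P.natDegree → W},
      (∀ a, aeval a A = algebraMap _ W A.leadingCoeff * ∏ i, (a - γ i)) → ∀ i, aeval (γ i) A = 0 :=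
    fun h i => by rw [h, Finset.prod_eq_zero (Finset.mem_univ i) (sub_self _), mul_zero]
  have hlc : ∀ {A : (KF q s p)[X]}, A ≠ 0 → algebraMap _ W A.leadingCoeff ≠ 0 := fun h => by
    simpa using h
  have hx' : φ b ≠ 0 := by simpa using hb
  have h3 : (φ x - algebraMap ℂ W c₁) * φ b = algebraMap _ W P.leadingCoeff * ∏ i, (φ ξ - α i) := by
    rw [← hα, ← hφ, ← h1, map_mul, map_sub, AlgHom.commutes]
  have h4 : (φ x - algebraMap ℂ W c₂) * φ b = algebraMap _ W Q.leadingCoeff * ∏ i, (φ ξ - β i) := by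
    rw [← hβ, ← hφ, ← h2, map_mul, map_sub, AlgHom.commutes]
  have h5 : ∏ i, (φ ξ - α i) ≠ 0 := right_ne_zero_of_mul (by
    rw [← hα, ← hφ]
    simpa using hP')
  have h6 : ∏ i, (φ ξ - β i) ≠ 0 := right_ne_zero_of_mul (by
    rw [← hβ, ← hφ]
    simpa using hQ')
  have hf : ∏ z : U m, φ (ell m q p (cz E z * s)) = φ (ff m q p s) := (map_prod _ _ _).symm
  have G : Geo (IsScalarTower.toAlgHom ℂ (LL m ξ q s p) W).fieldRange (φ ξ) (φ q) (φ (rr m s))
      (φ (YY m ξ q s p)) (φ (ZZ m ξ q s p)) ((φ x - algebraMap ℂ W c₁) / (φ x - algebraMap ℂ W c₂))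
      (algebraMap _ W P.leadingCoeff / algebraMap _ W Q.leadingCoeff) y
      (fun z : U m => φ (ell m q p (cz E z * s))) α β :=
    { y_mem := by rintro (_ | i); exacts [hL' (some (some none)), hL' (some (some (some i)))]
      q_mem := hL' (some none)
      A_mem := hL _ (IntermediateField.subset_adjoin _ _ (Or.inl rfl))
      B_mem := hL' none
      f_mem := hf ▸ hL _ h.ff_mem
      xi_eq := by rw [← map_mul, ← map_add, ← h.xi_eq.1]
      f_eq := by rw [hf, h.xi_eq.2, map_mul, map_sub, map_mul]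
      r_mem := hk _ rr_kF
      r_ne := by simpa using h.rr_ne
      l_mem := fun z => by simpa [map_ofNat] using hk _ (ell_sub_mem (q := q) s_kF p_kF z)
      l_ne := fun z => by simpa using h.ell_ne z
      l_inj := φ.injective.comp h.ell_inj
      a_mem := fun i => root_mem_Kb (algebraMap (KF q s p) W) (fun c => hK _ c.2) hP (root hα i)
      b_mem := fun i => root_mem_Kb (algebraMap (KF q s p) W) (fun c => hK _ c.2) hQ (root hβ i)
      ab := fun i j h0 => (aeval_ne_zero_of_isCoprime hPQ (α i)).elim (fun h => h (root hα i))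
        fun h => h (h0 ▸ root hβ j)
      u_mem := div_mem (hK _ (Subtype.property _)) (hK _ (Subtype.property _))
      u_ne := div_ne_zero (hlc hP) (hlc hQ)
      x_eq := by
        rw [eq_div_of_mul_eq hx' h3, eq_div_of_mul_eq hx' h4]
        have := hlc hQ
        field_simp
      card := by simpa [card_U] using hm
      pos := by simp }
  obtain ⟨ψ, hψ, hψ'⟩ := exists_psi (4 * (n + 1)) G.f_ne G.ab
    (fun i => Finset.prod_ne_zero_iff.1 h5 i (Finset.mem_univ i))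
    fun i => Finset.prod_ne_zero_iff.1 h6 i (Finset.mem_univ i)
  have : FiniteDimensional (LL m ξ q s p) W := Module.Finite.trans E W
  refine global hx htr (h.basis.algebraMap_comp (A := W)) (b' := bb (φ ξ) (φ q) y)
    (fun w => alg_mem_Kb (h.mem φ (subset_Kb ⟨none, rfl⟩) (subset_Kb ⟨some none, rfl⟩) fun c hc =>
      Kb_mono (by rintro _ ⟨i, rfl⟩; exact ⟨some (some i), rfl⟩) (hk c hc))
      (Algebra.IsAlgebraic.isAlgebraic w)) (c := 4 * (n + 1)) (by omega) hD2 c₁ c₂ hψ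
    fun d V e L hj => ?_
  have h7 := G.local L hj (fun g hg S hS => by
    simpa using card_branch (m := m) (q := φ q) (p := φ ∘ p) (s := φ s) L.disc L.const
      (by simpa using h.s_ne) g ⟨hg.1, hg.2.imp_right (Or.imp_right (by
        rintro ⟨_ | i, hi⟩
        exacts [Or.inl (map_T φ m s ▸ hi), Or.inr ⟨i, hi⟩]))⟩ S fun z hz => by
        simpa only [map_ell, map_mul, map_cz] using hS z hz) (fun hV z hz c hc γ hγ hne => by
    obtain ⟨σ, h7, h8, h9, h10, h11⟩ := hsym (z ^ 2)⁻¹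
    have key : ∀ A : (KF q s p)[X], A ≠ 0 → A.natDegree = P.natDegree →
        Sym (KF q s p) σ (ff m q p s) A →
        (∀ a, aeval a A = algebraMap _ W A.leadingCoeff * ∏ i, (a - γ i)) → _ := fun A h0 hA hS hr => by
      have h12 := mul_ne_zero (hlc h0) (Finset.prod_ne_zero_iff.2 fun i (_ : i ∈ Finset.univ) =>
        (hne i).2)
      have h13 := (hS.ord_eq ff_KF h.ff_ne φ L.const fun w hw => ord_sig L.disc φ
        (fun c hc => Kb_mem hV (hk c hc)) (h.ell_ne z) hz h7 h8 h9 hw).2 c hc (fun h' => h12 (by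
          rw [← hr, ← φ.commutes, ← hφ, h', map_zero]))
      rw [hφ, hφ, hr, hr, map_div₀, φ.commutes, ← hf, ord_mul (hlc h0) (right_ne_zero_of_mul h12),
        ord_mul (hlc h0) (Finset.prod_ne_zero_iff.2 fun i _ => (hne i).1),
        ord_prod _ _ fun i _ => (hne i).1, ord_prod _ _ fun i _ => (hne i).2,
        add_sub_add_left_eq_sub, ← Finset.sum_sub_distrib, hA] at h13
      exact h13
    rcases hγ with rfl | rfl
    exacts [key P hP rfl h10 hα, key Q hQ hd h11 hβ])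
  rw [hψ']
  simp only [Fintype.card_option, Fintype.card_fin] at h7
  push_cast at h7 ⊢
  rw [← add_sub_assoc]
  exact h7

theorem Ex.not_ruled (h : Ex ξ q s p) (hm : 4 * (n + 1) * (n + 3) ≤ m)
    [FiniteDimensional (LL m ξ q s p) E] {M : IntermediateField ℂ (LL m ξ q s p)}
    {x : LL m ξ q s p} (htr : Transcendental M x) (hx : M⟮x⟯ = ⊤) : False := by
  have h1 := h.mem_KF hm htr hx
  have h2 : ∀ c : M, algebraMap M E c ∈ KF q s p := fun c => by
    have h2 := h.mem_KF hm (x := x + c) (fun h' => htr (by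
      simpa using h'.sub (isAlgebraic_algebraMap c))) (eq_top_iff.2 (hx ▸
      IntermediateField.adjoin_simple_le_iff.2 (by
        simpa using sub_mem (IntermediateField.mem_adjoin_simple_self M (x + c))
          (IntermediateField.algebraMap_mem _ c))))
    have h3 := sub_mem h2 h1
    rwa [IntermediateField.coe_add, add_sub_cancel_left] at h3
  have h3 : ∀ c ∈ LL m ξ q s p, c ∈ KF q s p := fun c hc => by
    obtain ⟨P, Q, h3⟩ := (IntermediateField.mem_adjoin_simple_iff M _).1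
      (hx ▸ IntermediateField.mem_top : (⟨c, hc⟩ : LL m ξ q s p) ∈ M⟮x⟯)
    have h4 := congrArg (algebraMap _ E) h3
    rw [map_div₀, ← aeval_algebraMap_apply, ← aeval_algebraMap_apply] at h4
    exact (show c = _ from h4) ▸ div_mem (aeval_mem' h2 h1 P) (aeval_mem' h2 h1 Q)
  refine h.tr_xi (isAlgebraic_algebraMap (⟨ξ, ?_⟩ : KF q s p))
  rw [(h.xi_eq (m := m)).1]
  exact add_mem (h3 _ (IntermediateField.subset_adjoin _ _ (Or.inl rfl)))
    (mul_mem (kF_le rr_kF) (h3 _ (IntermediateField.subset_adjoin _ _ (Or.inr ⟨none, rfl⟩))))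

theorem ruled_of_rational {k : ℕ} (e : FractionRing (MvPolynomial (Fin (k + 1)) ℂ) ≃ₐ[ℂ] E) :
    ∃ (M : IntermediateField ℂ E) (x : E), Transcendental M x ∧ M⟮x⟯ = ⊤ := by
  have h1 := (CPD.indep_frac ℂ (Fin (k + 1))).map' (f := e.toAlgHom) e.injective
  have h2 := congrArg (IntermediateField.map e.toAlgHom) (CPD.gen_frac ℂ (Fin (k + 1)))
  rw [IntermediateField.adjoin_map, ← Set.range_comp, ← AlgHom.fieldRange_eq_map,
    AlgHom.fieldRange_eq_top.2 e.surjective, ← Set.image_univ,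
    ← Set.compl_union_self {0}, Set.image_union, Set.image_singleton,
    ← IntermediateField.adjoin_adjoin_left, IntermediateField.restrictScalars_eq_top_iff] at h2
  exact ⟨_, _, IntermediateField.transcendental_adjoin_iff.2
    (h1.transcendental_adjoin (by simp)), h2⟩

theorem main (N m : ℕ) (hN : 3 ≤ N) (hm : Odd m) (h : 4 * N * (N - 2) ≤ m) :
    ∃ (L : Type) (_ : Field L) (_ : Algebra ℂ L),
      (⊤ : IntermediateField ℂ L).FG ∧ Algebra.trdeg ℂ L = N ∧
      (∃ φ ψ : L →ₐ[ℂ] FractionRing (MvPolynomial (Fin N) ℂ),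
        finrank φ.fieldRange (FractionRing (MvPolynomial (Fin N) ℂ)) = 2 ∧
        finrank ψ.fieldRange (FractionRing (MvPolynomial (Fin N) ℂ)) = m) ∧
      (¬∃ (M : IntermediateField ℂ L) (x : L), Transcendental M x ∧ M⟮x⟯ = ⊤) ∧
      IsEmpty (L ≃ₐ[ℂ] FractionRing (MvPolynomial (Fin N) ℂ)) := by
  obtain ⟨n, rfl⟩ : ∃ n, N = n + 3 := ⟨N - 3, by omega⟩
  have : NeZero m := ⟨hm.pos.ne'⟩
  obtain ⟨E, _, _, ξ, q, s, p, hE⟩ := exists_ex n
  obtain ⟨_, h1, h2, h3⟩ := hE.degrees hm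
  have h4 : ¬∃ (M : IntermediateField ℂ (LL m ξ q s p)) (x : LL m ξ q s p),
      Transcendental M x ∧ M⟮x⟯ = ⊤ := fun ⟨_, _, h4, h5⟩ => hE.not_ruled (by
    rw [mul_right_comm]
    exact h) h4 h5
  exact ⟨LL m ξ q s p, inferInstance, inferInstance, h2, h1, h3, h4,
    ⟨fun e => h4 (ruled_of_rational e.symm)⟩⟩

end Pool.Agent.Lib.NRC
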